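import Mathlib
import Pool.Agent.Work.MP_3a3367_nt_h29.AVG
import Pool.Agent.Work.LinearSieve.Main
import Pool.Agent.Work.LinearSieve.MERT

/-!
# The linear sieve in an interval, with one arbitrary class for every prime
-/

set_option autoImplicit false

namespace Pool.Agent.Work.MP_3a3367_nt_h29b

open Finset Filter Topology
open Pool.Agent.Work.MP_b0c12c_nt_univ.INUaux (Pr QW)
open Pool.Agent.Work.MP_3a3367_nt_h29 (Sv PP count_classes)
open Pool.Agent.LinearSieve (linear_sieve)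

theorem mem_Pr' {W p : ℕ} : p ∈ Pr W ↔ p.Prime ∧ p ≤ W := by
  unfold Pr
  rw [mem_filter, mem_Icc]
  constructor
  · rintro ⟨⟨_, h⟩, h2⟩; exact ⟨h2, h⟩
  · rintro ⟨h, h2⟩; exact ⟨⟨h.one_lt.le, h2⟩, h⟩

/-- the integer attached to `m` -/
def nu (W : ℕ) (v : ℕ → ℕ) (m : ℕ) : ℕ := ∏ p ∈ (Pr W).filter (fun p => m ≡ v p [MOD p]), p

theorem dvd_nu {W : ℕ} {v : ℕ → ℕ} {m p : ℕ} (hp : p ∈ Pr W) :
    p ∣ nu W v m ↔ m ≡ v p [MOD p] := by
  have hpp := (mem_Pr'.1 hp).1
  unfold nu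
  rw [Prime.dvd_finsetProd_iff hpp.prime]
  constructor
  · rintro ⟨r, hr, hpr⟩
    rw [mem_filter] at hr
    have := (Nat.prime_dvd_prime_iff_eq hpp (mem_Pr'.1 hr.1).1).1 hpr
    rw [this]
    exact hr.2
  · intro h
    exact ⟨p, mem_filter.2 ⟨hp, h⟩, dvd_rfl⟩

theorem sqf_dvd_nu {W : ℕ} {v : ℕ → ℕ} {m d : ℕ} (hd : d ∣ ∏ p ∈ Pr W, p) :
    d ∣ nu W v m ↔ ∀ p ∈ d.primeFactors, m ≡ v p [MOD p] := by
  have hpos : ∏ p ∈ Pr W, p ≠ 0 := by
    rw [Finset.prod_ne_zero_iff]
    intro p hp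
    exact (mem_Pr'.1 hp).1.pos.ne'
  have hsq : Squarefree (∏ p ∈ Pr W, p) := by
    apply Finset.squarefree_prod_of_pairwise_isCoprime
    · intro p hp q hq hpq
      exact Nat.coprime_iff_isRelPrime.1
        ((Nat.coprime_primes (mem_Pr'.1 hp).1 (mem_Pr'.1 hq).1).2 hpq)
    · intro p hp
      exact (mem_Pr'.1 hp).1.prime.squarefree
  have hdsq : Squarefree d := hsq.squarefree_of_dvd hd
  have hd0 : d ≠ 0 := ne_zero_of_dvd_ne_zero hpos hd
  have hmem : ∀ p ∈ d.primeFactors, p ∈ Pr W := by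
    intro p hp
    have h1 := Nat.prime_of_mem_primeFactors hp
    have h2 := (Nat.dvd_of_mem_primeFactors hp).trans hd
    rw [Prime.dvd_finsetProd_iff h1.prime] at h2
    obtain ⟨r, hr, hpr⟩ := h2
    rw [(Nat.prime_dvd_prime_iff_eq h1 (mem_Pr'.1 hr).1).1 hpr]
    exact hr
  constructor
  · intro h p hp
    exact (dvd_nu (hmem p hp)).1 ((Nat.dvd_of_mem_primeFactors hp).trans h)
  · intro h
    rw [← Nat.prod_primeFactors_of_squarefree hdsq]
    apply Finset.prod_primes_dvd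
    · intro p hp
      exact (Nat.prime_of_mem_primeFactors hp).prime
    · intro p hp
      exact (dvd_nu (hmem p hp)).2 (h p hp)

theorem count_dvd {W : ℕ} {v : ℕ → ℕ} {d : ℕ} (hd : d ∣ ∏ p ∈ Pr W, p) (a X : ℕ) :
    |((#{m ∈ Ico a (a + X) | d ∣ nu W v m} : ℕ) : ℝ) - X * ∏ p ∈ d.primeFactors, (1 / (p : ℝ))|
      ≤ 1 := by
  have h1 := count_classes d.primeFactors (fun p hp => Nat.prime_of_mem_primeFactors hp) 1 one_pos
    (fun p _ => Nat.coprime_one_left p) 0 v a X
  have h2 : {m ∈ {m ∈ Ico a (a + X) | m ≡ 0 [MOD 1]} | ∀ p ∈ d.primeFactors, m ≡ v p [MOD p]} =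
      {m ∈ Ico a (a + X) | d ∣ nu W v m} := by
    rw [filter_filter]
    apply filter_congr
    intro m _
    rw [sqf_dvd_nu hd]
    constructor
    · rintro ⟨_, h⟩; exact h
    · intro h; exact ⟨Nat.modEq_one, h⟩
  rw [h2] at h1
  simpa using h1

theorem Sv_eq (W X a : ℕ) (v : ℕ → ℕ) :
    Sv W X a v = {m ∈ Ico a (a + X) | ∀ p ∈ Pr W, ¬ p ∣ nu W v m} := by
  unfold Sv
  apply filter_congr
  intro m _
  constructor
  · intro h p hp
    rw [dvd_nu hp]
    exact h p hp
  · intro h p hp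
    rw [← dvd_nu hp]
    exact h p hp

/-- the number of divisors below a bound -/
theorem card_filter_lt (n : ℕ) (B : ℝ) (hB : 0 ≤ B) :
    ((n.divisors.filter (fun d : ℕ => (d : ℝ) < B)).card : ℝ) ≤ B := by
  have h1 : n.divisors.filter (fun d : ℕ => (d : ℝ) < B) ⊆ Finset.Icc 1 ⌊B⌋₊ := by
    intro d hd
    rw [mem_filter] at hd
    rw [Finset.mem_Icc]
    exact ⟨Nat.pos_of_mem_divisors hd.1, Nat.le_floor hd.2.le⟩
  have h2 := card_le_card h1
  rw [Nat.card_Icc] at h2
  have h3 : ((n.divisors.filter (fun d : ℕ => (d : ℝ) < B)).card : ℝ) ≤ (⌊B⌋₊ : ℝ) := by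
    exact_mod_cast (by omega : (n.divisors.filter (fun d : ℕ => (d : ℝ) < B)).card ≤ ⌊B⌋₊)
  exact h3.trans (Nat.floor_le hB)

/-- the density condition for `g p = 1 / p` -/
theorem dens (ε : ℝ) (hε : 0 < ε) : ∃ u0 : ℕ, 3 ≤ u0 ∧ ∀ (W : ℕ) (u w : ℝ), 2 ≤ u → u ≤ w →
    w ≤ (W : ℝ) + 1 → 1 ≤ (1 + ε) * (Real.log w / Real.log u) *
      ∏ p ∈ (Pr W \ (Pr W).filter (· < u0)).filter (fun p : ℕ => u ≤ (p : ℝ) ∧ (p : ℝ) < w),
        (1 - 1 / (p : ℝ)) := by
  obtain ⟨u0, hu0, h⟩ := Pool.Agent.LinSieve.MERT ε hε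
  refine ⟨u0, hu0, ?_⟩
  intro W u w hu huw hwW
  have hu0' : (3 : ℝ) ≤ u0 := by exact_mod_cast hu0
  have hlu : 0 < Real.log u := Real.log_pos (by linarith)
  have hlw : Real.log u ≤ Real.log w := Real.log_le_log (by linarith) huw
  have hr1 : 1 ≤ Real.log w / Real.log u := by rw [le_div_iff₀ hlu]; linarith
  rcases le_or_gt w u0 with hw | hw
  · rw [filter_false_of_mem, prod_empty, mul_one]
    · nlinarith
    · intro p hp h2
      rw [Finset.mem_sdiff, mem_filter, not_and] at hp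
      have h3 := hp.2 hp.1
      have h4 : u0 ≤ p := by omega
      have h5 : (u0 : ℝ) ≤ p := by exact_mod_cast h4
      linarith [h2.2]
  · set u' : ℝ := max u u0 with hu'
    have hu'w : u' ≤ w := max_le huw hw.le
    have h1 := (h u' w (le_max_right _ _) hu'w).1
    have hlu' : 0 < Real.log u' := Real.log_pos (by linarith [le_max_right u (u0 : ℝ)])
    have hlw0 : 0 < Real.log w := by linarith
    have hle : Real.log w / Real.log u' ≤ Real.log w / Real.log u := by
      apply div_le_div_of_nonneg_left hlw0.le hlu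
      exact Real.log_le_log (by linarith) (le_max_left _ _)
    have hset : (range ⌈w⌉₊).filter (fun p : ℕ => p.Prime ∧ u' ≤ (p : ℝ)) =
        (Pr W \ (Pr W).filter (· < u0)).filter (fun p : ℕ => u ≤ (p : ℝ) ∧ (p : ℝ) < w) := by
      ext p
      simp only [mem_filter, mem_range, Finset.mem_sdiff, mem_Pr', Nat.lt_ceil, hu', max_le_iff]
      constructor
      · rintro ⟨h2, h3, h4, h5⟩
        have h6 : u0 ≤ p := by exact_mod_cast h5
        have h7 : p < W + 1 := by
          have : (p : ℝ) < ((W + 1 : ℕ) : ℝ) := by push_cast; linarith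
          exact_mod_cast this
        exact ⟨⟨⟨h3, by omega⟩, fun h8 => by omega⟩, h4, h2⟩
      · rintro ⟨⟨⟨h2, h3⟩, h4⟩, h5, h6⟩
        have h7 : u0 ≤ p := by
          by_contra h8
          exact h4 ⟨⟨h2, h3⟩, by omega⟩
        exact ⟨h6, h2, h5, by exact_mod_cast h7⟩
    rw [hset] at h1
    have h2 : ∏ p ∈ (Pr W \ (Pr W).filter (· < u0)).filter
        (fun p : ℕ => u ≤ (p : ℝ) ∧ (p : ℝ) < w), (1 - 1 / ((p : ℝ) - 1)) ≤
        ∏ p ∈ (Pr W \ (Pr W).filter (· < u0)).filter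
        (fun p : ℕ => u ≤ (p : ℝ) ∧ (p : ℝ) < w), (1 - 1 / (p : ℝ)) := by
      apply Finset.prod_le_prod
      · intro p hp
        rw [← hset, mem_filter] at hp
        have h3 : (3 : ℝ) ≤ p := by
          have := hp.2.2
          linarith [le_max_right u (u0 : ℝ)]
        rw [sub_nonneg, div_le_one (by linarith)]
        linarith
      · intro p hp
        rw [← hset, mem_filter] at hp
        have h3 : (3 : ℝ) ≤ p := by
          have := hp.2.2
          linarith [le_max_right u (u0 : ℝ)]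
        have h4 : 1 / (p : ℝ) ≤ 1 / ((p : ℝ) - 1) :=
          one_div_le_one_div_of_le (by linarith) (by linarith)
        linarith
    have h3 : 0 ≤ ∏ p ∈ (Pr W \ (Pr W).filter (· < u0)).filter
        (fun p : ℕ => u ≤ (p : ℝ) ∧ (p : ℝ) < w), (1 - 1 / (p : ℝ)) := by
      apply prod_nonneg
      intro p hp
      have hp1 : (1 : ℝ) ≤ p := by
        rw [← hset, mem_filter] at hp
        exact_mod_cast hp.2.1.one_lt.le
      rw [sub_nonneg, div_le_one (by linarith)]
      exact hp1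
    refine h1.trans ?_
    have h4 : 0 ≤ (1 + ε) * (Real.log w / Real.log u') := by positivity
    refine (mul_le_mul_of_nonneg_left h2 h4).trans ?_
    apply mul_le_mul_of_nonneg_right _ h3
    exact mul_le_mul_of_nonneg_left hle (by linarith)

/-- Mertens: `∏_{p ≤ W} (1 - 1/p) ≥ c / log W` -/
theorem QW_low' : ∃ c : ℝ, 0 < c ∧ ∀ W : ℕ, 2 ≤ W → c / Real.log (W + 1) ≤ QW W := by
  obtain ⟨u0, hu0, hd⟩ := dens 1 one_pos
  set c0 : ℝ := ∏ p ∈ range u0 with p.Prime, (1 - 1 / (p : ℝ)) with hc0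
  have hfac : ∀ p : ℕ, p.Prime → 0 < 1 - 1 / (p : ℝ) := by
    intro p hp
    have : (2 : ℝ) ≤ p := by exact_mod_cast hp.two_le
    rw [sub_pos, div_lt_one (by linarith)]
    linarith
  have hfac1 : ∀ p : ℕ, 1 - 1 / (p : ℝ) ≤ 1 := by
    intro p
    have : 0 ≤ 1 / (p : ℝ) := by positivity
    linarith
  have hc0pos : 0 < c0 := by
    apply Finset.prod_pos
    intro p hp
    exact hfac p (mem_filter.1 hp).2
  have hlog2 : 0 < Real.log 2 := Real.log_pos (by norm_num)
  refine ⟨c0 * Real.log 2 / 2, by positivity, ?_⟩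
  intro W hW
  have hW' : (2 : ℝ) ≤ W := by exact_mod_cast hW
  have h1 := hd W 2 (W + 1) le_rfl (by linarith) le_rfl
  set T := (Pr W \ (Pr W).filter (· < u0)).filter
    (fun p : ℕ => (2 : ℝ) ≤ (p : ℝ) ∧ (p : ℝ) < (W : ℝ) + 1) with hT
  have hlW : 0 < Real.log ((W : ℝ) + 1) := Real.log_pos (by linarith)
  have hTp : ∀ p ∈ T, p.Prime := fun p hp =>
    (mem_Pr'.1 (Finset.mem_sdiff.1 (mem_filter.1 hp).1).1).1
  have h2 : Real.log 2 / (2 * Real.log ((W : ℝ) + 1)) ≤ ∏ p ∈ T, (1 - 1 / (p : ℝ)) := by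
    rw [div_le_iff₀ (by positivity)]
    have h3 : Real.log 2 * 1 ≤ Real.log 2 * ((1 + 1) * (Real.log (↑W + 1) / Real.log 2) *
        ∏ p ∈ T, (1 - 1 / (p : ℝ))) := mul_le_mul_of_nonneg_left h1 hlog2.le
    have h4 : Real.log 2 * ((1 + 1) * (Real.log (↑W + 1) / Real.log 2) *
        ∏ p ∈ T, (1 - 1 / (p : ℝ))) = (∏ p ∈ T, (1 - 1 / (p : ℝ))) * (2 * Real.log (↑W + 1)) := by
      field_simp
      ring
    rw [h4] at h3
    linarith
  have h3 : c0 * ∏ p ∈ T, (1 - 1 / (p : ℝ)) ≤ QW W := by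
    have hsub : Pr W ⊆ (range u0).filter Nat.Prime ∪ T := by
      intro p hp
      obtain ⟨hp1, hp2⟩ := mem_Pr'.1 hp
      rw [mem_union, mem_filter, mem_range]
      by_cases h : p < u0
      · exact Or.inl ⟨h, hp1⟩
      · right
        rw [hT, mem_filter, Finset.mem_sdiff, mem_filter]
        refine ⟨⟨hp, fun h' => h h'.2⟩, by exact_mod_cast hp1.two_le, ?_⟩
        have : (p : ℝ) ≤ W := by exact_mod_cast hp2
        linarith
    have hdis : Disjoint ((range u0).filter Nat.Prime) T := by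
      rw [Finset.disjoint_left]
      intro p hp1 hp2
      rw [mem_filter, mem_range] at hp1
      rw [hT, mem_filter, Finset.mem_sdiff, mem_filter] at hp2
      exact hp2.1.2 ⟨hp2.1.1, hp1.1⟩
    rw [hc0, ← prod_union hdis]
    unfold QW
    exact Finset.prod_le_prod_of_subset_of_le_one hsub
      (fun p hp => by
        rw [mem_union] at hp
        rcases hp with hp | hp
        · exact (hfac p (mem_filter.1 hp).2).le
        · exact (hfac p (hTp p hp)).le)
      (fun p _ _ => hfac1 p)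
  refine le_trans ?_ h3
  have h4 : c0 * Real.log 2 / 2 / Real.log (↑W + 1) = c0 * (Real.log 2 / (2 * Real.log (↑W + 1))) := by
    field_simp
  rw [h4]
  exact mul_le_mul_of_nonneg_left h2 hc0pos.le

/-- the lower bound of the linear sieve in an interval, arbitrary classes -/
theorem low (s : ℝ) (hs : 2 < s) (hs4 : s ≤ 4) : ∃ c : ℝ, 0 < c ∧ ∃ W0 : ℕ, 2 ≤ W0 ∧
    ∀ W : ℕ, W0 ≤ W → ∀ X : ℕ, (W : ℝ) ^ s ≤ X → ∀ (a : ℕ) (v : ℕ → ℕ),
      c * X / Real.log W ≤ (#(Sv W X a v) : ℝ) := by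
  obtain ⟨A, hA, hlin⟩ := linear_sieve
  obtain ⟨c1, hc1, hQW⟩ := QW_low'
  set s1 : ℝ := (2 + s) / 2 with hs1
  have hs12 : 2 < s1 := by rw [hs1]; linarith
  have hs1s : s1 < s := by rw [hs1]; linarith
  set f1 : ℝ := Real.log (s1 - 1) / s1 with hf1
  have hf1pos : 0 < f1 := div_pos (Real.log_pos (by linarith)) (by linarith)
  have hδ : 0 < A * f1 / 2 := by positivity
  obtain ⟨ε, hε, h⟩ := hlin (A * f1 / 2) hδ
  obtain ⟨u0, hu0, hd⟩ := dens ε hε
  set M : ℕ := ∏ q ∈ (range u0).filter Nat.Prime, q with hM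
  set K : ℝ := 8 * 2 ^ s1 * M / (c1 * A * f1) with hK
  have hev : ∀ᶠ W : ℕ in atTop, K * Real.log W ≤ (W : ℝ) ^ (s - s1) := by
    have h1 : Tendsto (fun u : ℝ => Real.log u / u ^ (s - s1)) atTop (𝓝 0) :=
      (isLittleO_log_rpow_atTop (by linarith : (0 : ℝ) < s - s1)).tendsto_div_nhds_zero
    have hK0 : 0 < K + 1 := by positivity
    have h2 : ∀ᶠ u : ℝ in atTop, Real.log u / u ^ (s - s1) ≤ 1 / (K + 1) :=
      (h1.eventually (gt_mem_nhds (by positivity : (0 : ℝ) < 1 / (K + 1)))).mono fun u hu => hu.le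
    filter_upwards [tendsto_natCast_atTop_atTop.eventually h2, eventually_ge_atTop 2] with W hW hW2
    have hW0 : (2 : ℝ) ≤ W := by exact_mod_cast hW2
    have hp : 0 < (W : ℝ) ^ (s - s1) := by positivity
    rw [div_le_div_iff₀ hp hK0, one_mul] at hW
    have hlog : 0 ≤ Real.log W := Real.log_nonneg (by linarith)
    nlinarith
  obtain ⟨W1, hW1⟩ := eventually_atTop.1 hev
  refine ⟨c1 * A * f1 / 8, by positivity, max (max W1 u0) 2, le_max_right _ _, ?_⟩
  intro W hW X hX a v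
  have hWW1 : W1 ≤ W := (le_max_left _ _).trans ((le_max_left _ _).trans hW)
  have hWu0 : u0 ≤ W := (le_max_right _ _).trans ((le_max_left _ _).trans hW)
  have hW2 : 2 ≤ W := (le_max_right _ _).trans hW
  have hW2' : (2 : ℝ) ≤ W := by exact_mod_cast hW2
  have hlog : 0 < Real.log W := Real.log_pos (by linarith)
  set z : ℝ := (W : ℝ) + 1 with hz
  have hz1 : 1 ≤ z := by rw [hz]; linarith
  have hz0 : 0 < z := by linarith
  have hlz : 0 < Real.log z := Real.log_pos (by rw [hz]; linarith)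
  set D : ℝ := z ^ s1 with hD
  have hD0 : 0 < D := by positivity
  have hQ : (Pr W).filter (· < u0) = (range u0).filter Nat.Prime := by
    ext p
    simp only [mem_filter, mem_range, mem_Pr']
    constructor
    · rintro ⟨⟨h1, h2⟩, h3⟩; exact ⟨h3, h1⟩
    · rintro ⟨h1, h2⟩; exact ⟨⟨h2, by omega⟩, h1⟩
  have hXr : (0 : ℝ) ≤ X := Nat.cast_nonneg _
  have hmain := (h (Pr W) ((Pr W).filter (· < u0)) (fun p => 1 / (p : ℝ))
    (fun p hp => (mem_Pr'.1 hp).1) (filter_subset _ _) (fun p _ => by positivity)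
    (fun p hp => by
      have : (2 : ℝ) ≤ p := by exact_mod_cast (mem_Pr'.1 hp).1.two_le
      show 1 / (p : ℝ) < 1
      rw [div_lt_one (by linarith)]
      linarith) z D (by rw [hz]; linarith)
    (fun p hp => by
      have : (p : ℝ) ≤ W := by exact_mod_cast (mem_Pr'.1 hp).2
      rw [hz]; linarith)
    (fun u w hu huw hwz => by
      have h1 := hd W u w hu huw hwz
      convert h1)
    (Ico a (a + X)) (nu W v) (fun _ => 1) (fun _ _ => zero_le_one) X hXr).2
    (by
      rw [hD, ← Real.rpow_natCast]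
      exact Real.rpow_le_rpow_of_exponent_le hz1 (by norm_num; linarith))
    (by
      rw [hD, ← Real.rpow_natCast]
      exact Real.rpow_le_rpow_of_exponent_le hz1 (by norm_num; linarith))
  have hlogD : Real.log D / Real.log z = s1 := by
    rw [hD, Real.log_rpow hz0]
    field_simp
  rw [hlogD] at hmain
  -- the sum on the right
  have hR : ∑ i ∈ (Ico a (a + X)).filter (fun i => ∀ p ∈ Pr W, ¬ p ∣ nu W v i), (1 : ℝ) =
      (#(Sv W X a v) : ℝ) := by
    rw [sum_const, nsmul_eq_mul, mul_one, Sv_eq]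
  -- the remainder
  have hrem : ∑ d ∈ (∏ p ∈ Pr W, p).divisors.filter
      (fun d : ℕ => (d : ℝ) < D * (∏ q ∈ (Pr W).filter (· < u0), q : ℕ)),
      |∑ i ∈ (Ico a (a + X)).filter (fun i => d ∣ nu W v i), (1 : ℝ) -
        X * ∏ p ∈ d.primeFactors, (1 / (p : ℝ))| ≤ D * M := by
    rw [hQ, ← hM]
    calc _ ≤ ∑ d ∈ (∏ p ∈ Pr W, p).divisors.filter (fun d : ℕ => (d : ℝ) < D * M), (1 : ℝ) := by
          apply sum_le_sum
          intro d hd
          rw [mem_filter] at hd
          rw [sum_const, nsmul_eq_mul, mul_one]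
          exact count_dvd (Nat.dvd_of_mem_divisors hd.1) a X
      _ ≤ D * M := by
          rw [sum_const, nsmul_eq_mul, mul_one]
          exact card_filter_lt _ _ (by positivity)
  have hmain' : (X : ℝ) * QW W * (A * f1 / 2) - D * M ≤ (#(Sv W X a v) : ℝ) := by
    rw [← hR]
    refine le_trans ?_ (le_trans hmain ?_)
    · have e1 : (∏ p ∈ Pr W, (1 - (fun p : ℕ => 1 / (p : ℝ)) p)) = QW W := rfl
      rw [e1]
      have e2 : A * Real.log (s1 - 1) / s1 - A * f1 / 2 = A * f1 / 2 := by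
        rw [hf1]
        ring
      rw [e2]
      have e3 := hrem
      convert sub_le_sub_left e3 _ using 2
    · apply le_of_eq
      apply sum_congr _ fun _ _ => rfl
      ext i
      simp only [mem_filter]
  -- sizes
  have hlz2 : Real.log z ≤ 2 * Real.log W := by
    have h1 : z ≤ (W : ℝ) ^ 2 := by rw [hz]; nlinarith
    have h2 := Real.log_le_log hz0 h1
    rw [Real.log_pow] at h2
    push_cast at h2
    exact h2
  have hq1 : c1 / (2 * Real.log W) ≤ QW W := by
    refine le_trans ?_ (hQW W hW2)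
    exact div_le_div_of_nonneg_left hc1.le hlz hlz2
  have hX1 : c1 * A * f1 / 4 * X / Real.log W ≤ X * QW W * (A * f1 / 2) := by
    have h1 := mul_le_mul_of_nonneg_left hq1 (show 0 ≤ (X : ℝ) * (A * f1 / 2) by positivity)
    calc c1 * A * f1 / 4 * X / Real.log W = X * (A * f1 / 2) * (c1 / (2 * Real.log W)) := by
          field_simp
          ring
      _ ≤ X * (A * f1 / 2) * QW W := h1
      _ = _ := by ring
  have hX2 : D * M ≤ c1 * A * f1 / 8 * X / Real.log W := by
    have h1 : D ≤ 2 ^ s1 * (W : ℝ) ^ s1 := by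
      rw [hD, ← Real.mul_rpow (by norm_num) (by linarith)]
      apply Real.rpow_le_rpow hz0.le _ (by linarith)
      rw [hz]; linarith
    have h2 := hW1 W hWW1
    have h3 : (W : ℝ) ^ s1 * (W : ℝ) ^ (s - s1) = (W : ℝ) ^ s := by
      rw [← Real.rpow_add (by linarith)]
      congr 1
      ring
    have h4 : (W : ℝ) ^ s1 * (K * Real.log W) ≤ X := by
      refine le_trans ?_ hX
      rw [← h3]
      exact mul_le_mul_of_nonneg_left h2 (by positivity)
    rw [le_div_iff₀ hlog]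
    calc D * M * Real.log W ≤ 2 ^ s1 * (W : ℝ) ^ s1 * M * Real.log W := by
          apply mul_le_mul_of_nonneg_right _ hlog.le
          exact mul_le_mul_of_nonneg_right h1 (Nat.cast_nonneg _)
      _ = c1 * A * f1 / 8 * ((W : ℝ) ^ s1 * (K * Real.log W)) := by
          rw [hK]
          field_simp
      _ ≤ c1 * A * f1 / 8 * X := mul_le_mul_of_nonneg_left h4 (by positivity)
  have h8 : c1 * A * f1 / 4 * X / Real.log W = 2 * (c1 * A * f1 / 8 * X / Real.log W) := by ring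
  linarith

end Pool.Agent.Work.MP_3a3367_nt_h29b
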