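import Mathlib
import Pool.Agent.Work.MP_3a3367_nt_h29b.LOW
import Pool.Agent.Work.MP_3a3367_nt_h29.SEL
import Pool.Agent.Work.MP_3a3367_nt_h29.COVb

/-!
# Hits by the large primes
-/

set_option autoImplicit false

namespace Pool.Agent.Work.MP_3a3367_nt_h29b

open Finset Filter Topology
open Pool.Agent.Work.MP_b0c12c_nt_univ (IsLaw)
open Pool.Agent.Work.MP_b0c12c_nt_univ.INUaux (Pr QW rp rp_nonneg QW_pos)
open Pool.Agent.Work.MP_3a3367_nt_h29 (Sv PP wo sum_rp_le sum_card_le markov one_class per_class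
  pi_up card_Pu_le Pu)
open Pool.Agent.Work.MP_18694c_nt (count_coprime periodic_all count_all count_interval)
open Pool.Agent.Work.MP_b0c12c_nt_helper41 (mertens2)

theorem not_class (p : ℕ) (hp : 0 < p) (c : ℕ) :
    (#{m ∈ range p | ¬ m ≡ c [MOD p]} : ℝ) = p - 1 := by
  have h1 := one_class p hp c
  have h2 := card_filter_add_card_filter_not (s := range p) (fun m => m ≡ c [MOD p])
  rw [h1, card_range] at h2
  have h3 : ((1 + #{m ∈ range p | ¬ m ≡ c [MOD p]} : ℕ) : ℝ) = (p : ℝ) := by rw [h2]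
  push_cast at h3
  linarith

theorem class_sv (T X a p b : ℕ) (v : ℕ → ℕ) (hp : p.Prime) (hTp : T < p) :
    (#{m ∈ Sv T X a v | m ≡ b [MOD p]} : ℝ) ≤ QW T * (X / p) + ∏ l ∈ Pr T, (l : ℝ) := by
  set N : ℕ := ∏ l ∈ Pr T, l with hN
  have hTpr : ∀ l ∈ Pr T, l.Prime := fun l hl => (mem_Pr'.1 hl).1
  have hNpos : 0 < N := Finset.prod_pos fun l hl => (hTpr l hl).pos
  have hcop : Nat.Coprime p N := by
    apply Nat.Coprime.prod_right
    intro l hl
    have := (mem_Pr'.1 hl).2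
    exact (Nat.coprime_primes hp (hTpr l hl)).2 (by omega)
  have hperN : ∀ l ∈ Pr T, Function.Periodic (fun m => ¬ m ≡ v l [MOD l]) l := by
    intro l _ m
    have h := per_class l (v l) m
    simp only [eq_iff_iff] at h ⊢
    rw [not_iff_not]
    exact h
  have h1 := count_coprime p N hcop hp.pos hNpos (fun m => m ≡ b [MOD p])
    (fun m => ∀ l ∈ Pr T, ¬ m ≡ v l [MOD l]) (per_class p b)
    (periodic_all (Pr T) (fun l m => ¬ m ≡ v l [MOD l]) hperN)
  rw [one_class p hp.pos, count_all (Pr T) hTpr (fun l m => ¬ m ≡ v l [MOD l]) hperN, one_mul] at h1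
  have hper : Function.Periodic (fun m => m ≡ b [MOD p] ∧ ∀ l ∈ Pr T, ¬ m ≡ v l [MOD l])
      (p * N) := by
    intro m
    have e1 := ((per_class p b).nat_mul N) m
    have e2 := ((periodic_all (Pr T) (fun l m => ¬ m ≡ v l [MOD l]) hperN).nat_mul p) m
    simp only [Nat.cast_id, eq_iff_iff] at e1 e2
    simp only [eq_iff_iff]
    rw [mul_comm p N]
    rw [mul_comm p N] at e2
    rw [e1, e2]
  have h3 := count_interval (p * N) (Nat.mul_pos hp.pos hNpos)
    (fun m => m ≡ b [MOD p] ∧ ∀ l ∈ Pr T, ¬ m ≡ v l [MOD l]) hper a X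
  rw [h1] at h3
  have h4 : ((∏ l ∈ Pr T, #{m ∈ range l | ¬ m ≡ v l [MOD l]} : ℕ) : ℝ) = ∏ l ∈ Pr T, ((l : ℝ) - 1) := by
    push_cast
    apply prod_congr rfl
    intro l hl
    exact not_class l (hTpr l hl).pos _
  rw [h4] at h3
  have h5 : {m ∈ Sv T X a v | m ≡ b [MOD p]} =
      {m ∈ Ico a (a + X) | m ≡ b [MOD p] ∧ ∀ l ∈ Pr T, ¬ m ≡ v l [MOD l]} := by
    unfold Sv
    rw [filter_filter]
    apply filter_congr
    intro m _
    exact and_comm
  rw [h5]
  rw [abs_le] at h3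
  have h6 : ∏ l ∈ Pr T, ((l : ℝ) - 1) ≤ ∏ l ∈ Pr T, (l : ℝ) := by
    apply Finset.prod_le_prod
    · intro l hl
      have : (1 : ℝ) ≤ l := by exact_mod_cast (hTpr l hl).one_lt.le
      linarith
    · intro l _
      linarith
  have hN' : ((N : ℕ) : ℝ) = ∏ l ∈ Pr T, (l : ℝ) := by rw [hN]; push_cast; rfl
  have hNr : (0 : ℝ) < N := by exact_mod_cast hNpos
  have hpr : (0 : ℝ) < p := by exact_mod_cast hp.pos
  have h7 : (∏ l ∈ Pr T, ((l : ℝ) - 1)) * ((X : ℝ) / ((p * N : ℕ) : ℝ)) = QW T * (X / p) := by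
    have h8 : ∏ l ∈ Pr T, ((l : ℝ) - 1) = QW T * N := by
      rw [hN']
      unfold QW
      rw [← prod_mul_distrib]
      apply prod_congr rfl
      intro l hl
      have : (l : ℝ) ≠ 0 := by exact_mod_cast (hTpr l hl).pos.ne'
      field_simp
    rw [h8]
    push_cast
    field_simp
  rw [h7] at h3
  linarith [h3.2]

theorem QW_small (ε : ℝ) (hε : 0 < ε) : ∃ T : ℕ, QW T ≤ ε := by
  obtain ⟨C, hC, hm⟩ := mertens2
  have hlog2 : 0 < Real.log 2 := Real.log_pos (by norm_num)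
  have hll : Tendsto (fun x : ℕ => Real.log (Real.log (x : ℝ))) atTop atTop :=
    Real.tendsto_log_atTop.comp (Real.tendsto_log_atTop.comp tendsto_natCast_atTop_atTop)
  obtain ⟨T, hT⟩ := ((hll.eventually_ge_atTop
    (Real.log (Real.log 2) + C / Real.log 2 - Real.log ε)).and (eventually_ge_atTop 2)).exists
  refine ⟨T, ?_⟩
  have h1 := hm 2 T le_rfl hT.2
  have h4 : ((2 : ℕ) : ℝ) = 2 := by norm_num
  rw [h4, abs_le] at h1
  have h2 : ∑ p ∈ (Ioc 2 T).filter Nat.Prime, 1 / (p : ℝ) ≤ ∑ p ∈ Pr T, 1 / (p : ℝ) := by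
    apply sum_le_sum_of_subset_of_nonneg
    · intro p hp
      rw [mem_filter, mem_Ioc] at hp
      exact mem_Pr'.2 ⟨hp.2, hp.1.2⟩
    · intro p _ _
      positivity
  have h3 : QW T ≤ Real.exp (-∑ p ∈ Pr T, 1 / (p : ℝ)) := by
    rw [← sum_neg_distrib, Real.exp_sum]
    unfold QW
    apply Finset.prod_le_prod
    · intro p hp
      have : (1 : ℝ) ≤ p := by exact_mod_cast (mem_Pr'.1 hp).1.one_lt.le
      rw [sub_nonneg, div_le_one (by linarith)]
      exact this
    · intro p _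
      have := Real.add_one_le_exp (-(1 / (p : ℝ)))
      linarith
  refine h3.trans ?_
  rw [← Real.exp_log hε]
  apply Real.exp_le_exp.2
  linarith [h1.1, hT.1]

theorem hit_sum (θ c1 ε : ℝ) (hθ : 0 < θ) (hc1 : 0 < c1) (hε : 0 < ε) : ∃ T n0 : ℕ,
    ∀ n : ℕ, n0 ≤ n → ∀ X Y W : ℕ, c1 * Real.sqrt n ≤ X → (Y : ℝ) ≤ 2 * Real.sqrt n →
      (n : ℝ) ^ θ ≤ 2 * W → T ≤ W ∧
      ∑ p ∈ PP W Y, (QW T * (X / p) + ∏ l ∈ Pr T, (l : ℝ)) ≤ ε * X := by
  obtain ⟨C, hC, hm⟩ := mertens2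
  set S0 : ℝ := |Real.log (2 / θ)| + C with hS0
  have hS0pos : 0 < S0 := by positivity
  obtain ⟨T, hT⟩ := QW_small (ε / (2 * S0)) (by positivity)
  set M : ℝ := ∏ l ∈ Pr T, (l : ℝ) with hM
  have hM1 : 0 < M := by
    apply Finset.prod_pos
    intro l hl
    exact_mod_cast (mem_Pr'.1 hl).1.pos
  -- eventual facts
  have hsq : Tendsto (fun n : ℕ => Real.sqrt (n : ℝ)) atTop atTop :=
    Real.tendsto_sqrt_atTop.comp tendsto_natCast_atTop_atTop
  have hfl : Tendsto (fun n : ℕ => ⌊2 * Real.sqrt (n : ℝ)⌋₊) atTop atTop :=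
    tendsto_nat_floor_atTop.comp (hsq.const_mul_atTop (by norm_num))
  have hpi := hfl.eventually pi_up
  have hlog : ∀ᶠ n : ℕ in atTop, 10 * M / (c1 * ε) ≤ Real.log (⌊2 * Real.sqrt (n : ℝ)⌋₊ : ℝ) :=
    (Real.tendsto_log_atTop.comp (tendsto_natCast_atTop_atTop.comp hfl)).eventually_ge_atTop _
  have hnθ : ∀ᶠ n : ℕ in atTop, 2 * ((T : ℝ) + 3) ≤ (n : ℝ) ^ θ :=
    ((tendsto_rpow_atTop hθ).comp tendsto_natCast_atTop_atTop).eventually_ge_atTop _
  have hnθ2 : ∀ᶠ n : ℕ in atTop, 2 ≤ (n : ℝ) ^ (θ / 2) :=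
    ((tendsto_rpow_atTop (by positivity : 0 < θ / 2)).comp
      tendsto_natCast_atTop_atTop).eventually_ge_atTop _
  obtain ⟨n0, hn0⟩ := eventually_atTop.1
    (hpi.and (hlog.and (hnθ.and (hnθ2.and (eventually_ge_atTop 4)))))
  refine ⟨T, n0, ?_⟩
  intro n hn X Y W hX hY hW
  obtain ⟨h1, h2, h3, h4, h5⟩ := hn0 n hn
  have hn4 : (4 : ℝ) ≤ n := by exact_mod_cast h5
  have hnpos : (0 : ℝ) < n := by linarith
  have hWT : (T : ℝ) + 3 ≤ W := by linarith
  have hTW : T ≤ W := by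
    have : (T : ℝ) ≤ W := by linarith
    exact_mod_cast this
  refine ⟨hTW, ?_⟩
  have hW3 : (3 : ℝ) ≤ W := by
    have : (0 : ℝ) ≤ T := Nat.cast_nonneg _
    linarith
  have hWnat : 3 ≤ W := by exact_mod_cast hW3
  have hX0 : (0 : ℝ) ≤ X := Nat.cast_nonneg _
  set r : ℝ := Real.sqrt n with hr
  have hr2 : r * r = n := Real.mul_self_sqrt hnpos.le
  have hr0 : 0 < r := Real.sqrt_pos.2 hnpos
  have hr_ge : 2 ≤ r := by
    by_contra h
    push Not at h
    nlinarith
  -- the sum of 1/p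
  have hsum : ∑ p ∈ PP W Y, 1 / (p : ℝ) ≤ S0 := by
    unfold PP
    rcases le_or_gt Y W with hYW | hYW
    · rw [Finset.Ioc_eq_empty_of_le hYW]
      simp only [filter_empty, sum_empty]
      exact hS0pos.le
    · have h6 := (abs_le.1 (hm W Y (by omega) hYW.le)).2
      have hlW1 : 1 ≤ Real.log W := by
        rw [Real.le_log_iff_exp_le (by linarith)]
        have := Real.exp_one_lt_d9
        linarith
      have hlW : θ / 2 * Real.log n ≤ Real.log W := by
        rw [← Real.log_rpow hnpos]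
        apply Real.log_le_log (by positivity)
        have h7 : (n : ℝ) ^ θ = (n : ℝ) ^ (θ / 2) * (n : ℝ) ^ (θ / 2) := by
          rw [← Real.rpow_add hnpos]
          congr 1
          ring
        rw [h7] at hW
        have h8 : 0 < (n : ℝ) ^ (θ / 2) := by positivity
        nlinarith
      have hlY : Real.log Y ≤ Real.log n := by
        apply Real.log_le_log
        · have : (0 : ℝ) < W := by linarith
          have h7 : (W : ℝ) < Y := by exact_mod_cast hYW
          linarith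
        · nlinarith
      have hlYpos : 0 < Real.log Y := by
        have h7 : (W : ℝ) < Y := by exact_mod_cast hYW
        exact Real.log_pos (by linarith)
      have h9 : Real.log (Real.log Y) - Real.log (Real.log W) ≤ Real.log (2 / θ) := by
        rw [← Real.log_div hlYpos.ne' (by linarith)]
        apply Real.log_le_log (by positivity)
        rw [div_le_div_iff₀ (by linarith) hθ]
        nlinarith
      have h10 : C / Real.log W ≤ C := div_le_self hC.le hlW1
      have h11 := le_abs_self (Real.log (2 / θ))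
      rw [hS0]
      linarith
  -- the number of primes
  have hcard : (#(PP W Y) : ℝ) * M ≤ ε / 2 * X := by
    set y : ℕ := ⌊2 * r⌋₊ with hy
    have hYy : Y ≤ y := Nat.le_floor hY
    have h6 : #(PP W Y) ≤ Nat.primeCounting y :=
      (card_Pu_le W Y).trans (Nat.monotone_primeCounting hYy)
    have h7 : (#(PP W Y) : ℝ) ≤ Nat.primeCounting y := by exact_mod_cast h6
    have h8 : (y : ℝ) ≤ 2 * r := Nat.floor_le (by positivity)
    have hp0 : (0 : ℝ) ≤ Nat.primeCounting y := Nat.cast_nonneg _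
    have h9 : (Nat.primeCounting y : ℝ) * (10 * M / (c1 * ε)) ≤ 5 * r := by
      refine (mul_le_mul_of_nonneg_left h2 hp0).trans (h1.trans ?_)
      linarith
    have h10 : (Nat.primeCounting y : ℝ) * M ≤ ε / 2 * (c1 * r) := by
      have h11 : (Nat.primeCounting y : ℝ) * (10 * M / (c1 * ε)) =
        (Nat.primeCounting y : ℝ) * M * (10 / (c1 * ε)) := by ring
      rw [h11] at h9
      have h12 : (Nat.primeCounting y : ℝ) * M =
          (Nat.primeCounting y : ℝ) * M * (10 / (c1 * ε)) * (c1 * ε / 10) := by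
        field_simp
      rw [h12]
      calc (Nat.primeCounting y : ℝ) * M * (10 / (c1 * ε)) * (c1 * ε / 10) ≤
          5 * r * (c1 * ε / 10) := mul_le_mul_of_nonneg_right h9 (by positivity)
        _ = ε / 2 * (c1 * r) := by ring
    calc (#(PP W Y) : ℝ) * M ≤ Nat.primeCounting y * M := mul_le_mul_of_nonneg_right h7 hM1.le
      _ ≤ ε / 2 * (c1 * r) := h10
      _ ≤ ε / 2 * X := mul_le_mul_of_nonneg_left hX (by positivity)
  rw [sum_add_distrib, sum_const, nsmul_eq_mul]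
  have h6 : ∑ p ∈ PP W Y, QW T * ((X : ℝ) / p) = QW T * X * ∑ p ∈ PP W Y, 1 / (p : ℝ) := by
    rw [mul_sum]
    apply sum_congr rfl
    intro p _
    ring
  rw [h6]
  have h7 : QW T * X * ∑ p ∈ PP W Y, 1 / (p : ℝ) ≤ ε / (2 * S0) * X * S0 := by
    apply mul_le_mul _ hsum
    · apply sum_nonneg
      intro p _
      positivity
    · positivity
    · exact mul_le_mul_of_nonneg_right hT hX0
  have h8 : ε / (2 * S0) * X * S0 = ε / 2 * X := by
    field_simp
  linarith

/-- selection of the survivors with few hits -/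
theorem sel2 {V : ℕ → Finset ℕ} {π : ℕ → ℕ → ℝ} (hL : IsLaw V π) (P S : Finset ℕ) (Mb : ℕ → ℝ)
    (hMb : ∀ p ∈ P, ∀ b, (#{m ∈ S | m ≡ b [MOD p]} : ℝ) ≤ Mb p) (c d : ℕ → ℕ)
    (hc : ∀ p ∈ P, c p ∈ V p ∧ π p (c p) < 1) (K : ℝ) (hK : 0 < K)
    (hM1 : 8 * ∑ p ∈ P, Mb p ≤ K * #S) :
    ∃ S' ⊆ S, (#S : ℝ) ≤ 2 * #S' ∧
      (∀ m ∈ S', ((P.filter fun p => m ≡ c p [MOD p]).card : ℝ) +
        ((P.filter fun p => m ≡ d p [MOD p]).card : ℝ) ≤ K) ∧
      (∀ m ∈ S', ∑ p ∈ P, (rp V π p m + rp V (wo π c) p m) ≤ K) := by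
  classical
  set s : ℝ := (#S : ℝ) with hs
  have hs0 : 0 ≤ s := Nat.cast_nonneg _
  have hq0 : ∀ p ∈ P, 0 < 1 - π p (c p) := fun p hp => by linarith [(hc p hp).2]
  have hwo0 : ∀ p ∈ P, ∀ b ∈ V p, 0 ≤ wo π c p b := by
    intro p hp b hb
    unfold wo
    split_ifs
    · exact le_rfl
    · exact div_nonneg (hL.nonneg p b hb) (hq0 p hp).le
  have hwo1 : ∀ p ∈ P, ∑ b ∈ V p, wo π c p b = 1 := by
    intro p hp
    have h1 : ∑ b ∈ V p, wo π c p b * (1 - π p (c p)) = 1 - π p (c p) := by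
      have h2 : ∀ b ∈ V p, wo π c p b * (1 - π p (c p)) = π p b - if b = c p then π p (c p) else 0 := by
        intro b _
        unfold wo
        split_ifs with h
        · rw [h]; ring
        · rw [div_mul_cancel₀ _ (hq0 p hp).ne']; ring
      rw [sum_congr rfl h2, sum_sub_distrib, hL.sum_one, sum_ite_eq', if_pos (hc p hp).1]
    rw [← sum_mul] at h1
    exact mul_right_cancel₀ (hq0 p hp).ne' (by rw [h1, one_mul])
  set f : ℕ → ℝ := fun m => ((P.filter fun p => m ≡ c p [MOD p]).card : ℝ) +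
        ((P.filter fun p => m ≡ d p [MOD p]).card : ℝ) +
        ∑ p ∈ P, (rp V π p m + rp V (wo π c) p m) with hf
  have hrp0 : ∀ m, 0 ≤ ∑ p ∈ P, (rp V π p m + rp V (wo π c) p m) := by
    intro m
    apply sum_nonneg
    intro p hp
    apply add_nonneg (rp_nonneg hL p m)
    unfold rp
    apply sum_nonneg
    intro b hb
    split_ifs
    · exact hwo0 p hp b hb
    · exact le_rfl
  have hf0 : ∀ m ∈ S, 0 ≤ f m := by
    intro m _
    have := hrp0 m
    simp only [hf]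
    positivity
  have hfsum : ∑ m ∈ S, f m ≤ K * s / 2 := by
    have e1 : ∀ c' : ℕ → ℕ, ∑ m ∈ S, ((P.filter fun p => m ≡ c' p [MOD p]).card : ℝ) ≤
        ∑ p ∈ P, Mb p := by
      intro c'
      have h1 := sum_card_le P S Mb c' hMb (fun _ => 1) (fun _ _ => zero_le_one)
      simp only [sum_const, nsmul_eq_mul, mul_one] at h1
      exact h1
    have e2 := sum_rp_le P S Mb hMb (fun p _ b hb => hL.nonneg p b hb) (fun p _ => hL.sum_one p)
    have e3 := sum_rp_le P S Mb hMb hwo0 hwo1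
    have e4 : ∑ m ∈ S, f m = ∑ m ∈ S, ((P.filter fun p => m ≡ c p [MOD p]).card : ℝ) +
        ∑ m ∈ S, ((P.filter fun p => m ≡ d p [MOD p]).card : ℝ) +
        (∑ m ∈ S, ∑ p ∈ P, rp V π p m + ∑ m ∈ S, ∑ p ∈ P, rp V (wo π c) p m) := by
      simp only [hf, sum_add_distrib]
    rw [e4]
    linarith [e1 c, e1 d]
  have hk1 := markov S f hf0 K _ hfsum
  set B1 : Finset ℕ := {m ∈ S | K < f m} with hB1
  have hb1 : (#B1 : ℝ) ≤ s / 2 := by
    have h2 : (#B1 : ℝ) * K ≤ s / 2 * K := by linarith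
    exact le_of_mul_le_mul_right h2 hK
  refine ⟨S \ B1, sdiff_subset, ?_, ?_, ?_⟩
  · have h1 : #S ≤ #(S \ B1) + #B1 := by
      have e2 := le_card_sdiff B1 S
      omega
    have h2 : s ≤ (#(S \ B1) : ℝ) + #B1 := by
      rw [hs]
      exact_mod_cast h1
    linarith
  · intro m hm
    rw [Finset.mem_sdiff] at hm
    have h1 : f m ≤ K := by
      by_contra h
      exact hm.2 (mem_filter.2 ⟨hm.1, not_le.1 h⟩)
    have := hrp0 m
    simp only [hf] at h1
    linarith
  · intro m hm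
    rw [Finset.mem_sdiff] at hm
    have h1 : f m ≤ K := by
      by_contra h
      exact hm.2 (mem_filter.2 ⟨hm.1, not_le.1 h⟩)
    simp only [hf] at h1
    have h2 : (0 : ℝ) ≤ ((P.filter fun p => m ≡ c p [MOD p]).card : ℝ) := Nat.cast_nonneg _
    have h3 : (0 : ℝ) ≤ ((P.filter fun p => m ≡ d p [MOD p]).card : ℝ) := Nat.cast_nonneg _
    linarith

end Pool.Agent.Work.MP_3a3367_nt_h29b
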