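import Mathlib

/-!
# Numerics for the semi-random window
-/

set_option autoImplicit false

namespace Pool.Agent.Work.MP_3a3367_nt_h29b

open Filter Topology

theorem ev_pow_exp (a B : ℝ) (k : ℕ) (ha : 0 < a) :
    ∀ᶠ u : ℝ in atTop, B * u ^ k ≤ Real.exp (a * u) := by
  have h1 := (isLittleO_pow_exp_pos_mul_atTop k ha).def (show 0 < 1 / (|B| + 1) by positivity)
  filter_upwards [h1, eventually_gt_atTop 0] with u hu hu0
  rw [Real.norm_eq_abs, Real.norm_eq_abs, abs_of_pos (by positivity), abs_of_pos (Real.exp_pos _)] at hu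
  have h2 : (|B| + 1) * u ^ k ≤ Real.exp (a * u) := by
    have h3 := mul_le_mul_of_nonneg_left hu (show 0 ≤ |B| + 1 by positivity)
    have h4 : (|B| + 1) * (1 / (|B| + 1) * Real.exp (a * u)) = Real.exp (a * u) := by
      field_simp
    linarith
  have h3 : B ≤ |B| + 1 := by linarith [le_abs_self B]
  have h4 : 0 ≤ u ^ k := by positivity
  nlinarith

theorem numerics2 (θ η lam κ0 ε1 C c c0 : ℝ) (hθ : 0 < θ) (hη0 : 0 < η)
    (hη : η < 1 / 2) (hε1 : 0 < ε1) (hε1b : ε1 ≤ (1 / 2 - η) / 2)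
    (hκθ : κ0 ≤ θ / 16) (hκε : (3 + lam) * κ0 ≤ ε1 / 2)
    (hC : 0 ≤ C) (hc : 0 < c) (hc0 : 0 < c0) :
    ∀ᶠ u : ℝ in atTop, ∀ X W κ : ℝ, c0 * Real.exp (u / 2) ≤ X → Real.exp (θ * u) / 2 ≤ W →
      c * X / (2 * u) * Real.exp (-(3 * (κ0 * u))) ≤ κ →
      Real.exp ((1 / 2 - η - ε1) * u) ≤ κ * Real.exp (-(η * (u + 1)) - lam * (κ0 * u)) / 4 ∧
      3 * u ≤ κ ^ 2 / (16 * ((1 + C) ^ 2 * X ^ 2 / W)) ∧
      3 * u ≤ κ * Real.exp (-(η * (u + 1)) - lam * (κ0 * u)) /
        (16 * (1 + Real.exp (-(η * (u + 1)) - lam * (κ0 * u)) *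
          (X * Real.exp (κ0 * u) * W ^ (-(1 - η))))) := by
  have ev1 := ev_pow_exp (ε1 / 2) (8 * Real.exp η / (c * c0)) 1 (by positivity)
  have ev2 := ev_pow_exp (θ / 2) (384 * (1 + C) ^ 2 / c ^ 2) 3 (by positivity)
  have ev3 := ev_pow_exp (θ / 4) (384 / c) 2 (by positivity)
  have ev4 := ev_pow_exp (1 / 2 - η - ε1) 24 1 (by linarith)
  filter_upwards [ev1, ev2, ev3, ev4, eventually_ge_atTop 1] with u h1 h2 h3 h4 hu
  intro X W κ hX hW hκ
  have hu0 : 0 < u := by linarith
  rw [pow_one] at h1 h4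
  have hXpos : 0 < X := lt_of_lt_of_le (by positivity) hX
  have hWpos : 0 < W := lt_of_lt_of_le (by positivity) hW
  set w0 : ℝ := Real.exp (-(η * (u + 1)) - lam * (κ0 * u)) with hw0
  have hw0pos : 0 < w0 := Real.exp_pos _
  have hκpos : 0 < κ := lt_of_lt_of_le (by positivity) hκ
  -- (1)
  have hone : Real.exp ((1 / 2 - η - ε1) * u) ≤ κ * w0 / 4 := by
    have e1 : c * (c0 * Real.exp (u / 2)) / (2 * u) * Real.exp (-(3 * (κ0 * u))) ≤ κ := by
      refine le_trans ?_ hκ
      apply mul_le_mul_of_nonneg_right _ (Real.exp_pos _).le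
      apply div_le_div_of_nonneg_right _ (by positivity)
      exact mul_le_mul_of_nonneg_left hX hc.le
    have e2 : c * (c0 * Real.exp (u / 2)) / (2 * u) * Real.exp (-(3 * (κ0 * u))) * w0 / 4 ≤
        κ * w0 / 4 := by
      apply div_le_div_of_nonneg_right _ (by norm_num)
      exact mul_le_mul_of_nonneg_right e1 hw0pos.le
    refine le_trans ?_ e2
    have e3 : c * (c0 * Real.exp (u / 2)) / (2 * u) * Real.exp (-(3 * (κ0 * u))) * w0 / 4 =
        c * c0 * (Real.exp (-η)) / (8 * u) *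
          Real.exp ((1 / 2 - η - (3 + lam) * κ0) * u) := by
      have e4 : Real.exp (u / 2) * Real.exp (-(3 * (κ0 * u))) * w0 = Real.exp (-η) *
          Real.exp ((1 / 2 - η - (3 + lam) * κ0) * u) := by
        rw [hw0, ← Real.exp_add, ← Real.exp_add, ← Real.exp_add]
        congr 1
        ring
      calc c * (c0 * Real.exp (u / 2)) / (2 * u) * Real.exp (-(3 * (κ0 * u))) * w0 / 4 =
          c * c0 / (8 * u) * (Real.exp (u / 2) * Real.exp (-(3 * (κ0 * u))) * w0) := by
            field_simp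
            ring
        _ = _ := by rw [e4]; ring
    rw [e3]
    have e5 : Real.exp ((1 / 2 - η - ε1) * u) * Real.exp (ε1 / 2 * u) ≤
        Real.exp ((1 / 2 - η - (3 + lam) * κ0) * u) := by
      rw [← Real.exp_add]
      apply Real.exp_le_exp.2
      have := mul_le_mul_of_nonneg_right hκε hu0.le
      nlinarith
    have e6 : 8 * Real.exp η / (c * c0) * u * (c * c0 * Real.exp (-η) / (8 * u)) = 1 := by
      have e7 : Real.exp η * Real.exp (-η) = 1 := by rw [← Real.exp_add]; simp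
      field_simp
      linarith
    have hco : 0 < c * c0 * Real.exp (-η) / (8 * u) := by positivity
    calc Real.exp ((1 / 2 - η - ε1) * u) = Real.exp ((1 / 2 - η - ε1) * u) *
          (8 * Real.exp η / (c * c0) * u * (c * c0 * Real.exp (-η) / (8 * u))) := by rw [e6, mul_one]
      _ = c * c0 * Real.exp (-η) / (8 * u) * (Real.exp ((1 / 2 - η - ε1) * u) *
          (8 * Real.exp η / (c * c0) * u)) := by ring
      _ ≤ c * c0 * Real.exp (-η) / (8 * u) * (Real.exp ((1 / 2 - η - ε1) * u) *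
          Real.exp (ε1 / 2 * u)) := by
            apply mul_le_mul_of_nonneg_left _ hco.le
            exact mul_le_mul_of_nonneg_left h1 (Real.exp_pos _).le
      _ ≤ _ := mul_le_mul_of_nonneg_left e5 hco.le
  refine ⟨hone, ?_, ?_⟩
  · -- (2)
    have e1 : (c * X / (2 * u) * Real.exp (-(3 * (κ0 * u)))) ^ 2 ≤ κ ^ 2 :=
      pow_le_pow_left₀ (by positivity) hκ 2
    have e2 : (c * X / (2 * u) * Real.exp (-(3 * (κ0 * u)))) ^ 2 /
        (16 * ((1 + C) ^ 2 * X ^ 2 / W)) ≤ κ ^ 2 / (16 * ((1 + C) ^ 2 * X ^ 2 / W)) :=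
      div_le_div_of_nonneg_right e1 (by positivity)
    refine le_trans ?_ e2
    have e3 : (c * X / (2 * u) * Real.exp (-(3 * (κ0 * u)))) ^ 2 /
        (16 * ((1 + C) ^ 2 * X ^ 2 / W)) = c ^ 2 / (64 * (1 + C) ^ 2 * u ^ 2) *
          (Real.exp (-(3 * (κ0 * u))) ^ 2 * W) := by
      field_simp
      ring
    rw [e3]
    have e4 : Real.exp (θ / 2 * u) / 2 ≤ Real.exp (-(3 * (κ0 * u))) ^ 2 * W := by
      have e5 : Real.exp (-(3 * (κ0 * u))) ^ 2 * (Real.exp (θ * u) / 2) ≤
          Real.exp (-(3 * (κ0 * u))) ^ 2 * W := mul_le_mul_of_nonneg_left hW (by positivity)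
      refine le_trans ?_ e5
      rw [← Real.exp_nat_mul, ← mul_div_assoc, ← Real.exp_add]
      apply div_le_div_of_nonneg_right _ (by norm_num)
      apply Real.exp_le_exp.2
      push_cast
      have := mul_le_mul_of_nonneg_right hκθ hu0.le
      nlinarith
    have e6 : c ^ 2 / (64 * (1 + C) ^ 2 * u ^ 2) * (Real.exp (θ / 2 * u) / 2) ≤
        c ^ 2 / (64 * (1 + C) ^ 2 * u ^ 2) * (Real.exp (-(3 * (κ0 * u))) ^ 2 * W) :=
      mul_le_mul_of_nonneg_left e4 (by positivity)
    refine le_trans ?_ e6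
    have e7 : c ^ 2 / (64 * (1 + C) ^ 2 * u ^ 2) * (384 * (1 + C) ^ 2 / c ^ 2 * u ^ 3 / 2) ≤
        c ^ 2 / (64 * (1 + C) ^ 2 * u ^ 2) * (Real.exp (θ / 2 * u) / 2) := by
      apply mul_le_mul_of_nonneg_left _ (by positivity)
      exact div_le_div_of_nonneg_right h2 (by norm_num)
    refine le_trans (le_of_eq ?_) e7
    field_simp
    ring
  · -- (3)
    rw [le_div_iff₀ (by positivity)]
    have f1 : 96 * u ≤ κ * w0 := by
      have : 4 * Real.exp ((1 / 2 - η - ε1) * u) ≤ κ * w0 := by linarith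
      linarith
    have f2 : 96 * u * (X * Real.exp (κ0 * u) * W ^ (-(1 - η))) ≤ κ := by
      refine le_trans ?_ hκ
      have g1 : W ^ (-(1 - η)) ≤ 2 * Real.exp (-(θ / 2 * u)) := by
        have g2 : W ^ (-(1 - η)) ≤ (Real.exp (θ * u) / 2) ^ (-(1 - η)) :=
          Real.rpow_le_rpow_of_nonpos (by positivity) hW (by linarith)
        refine g2.trans ?_
        rw [Real.div_rpow (Real.exp_pos _).le (by norm_num), ← Real.exp_mul]
        have g3 : (2 : ℝ) ^ (-(1 - η)) = (2 ^ (1 - η))⁻¹ := Real.rpow_neg (by norm_num) _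
        rw [g3, div_inv_eq_mul]
        have g4 : (2 : ℝ) ^ (1 - η) ≤ 2 := by
          calc (2 : ℝ) ^ (1 - η) ≤ 2 ^ (1 : ℝ) :=
                Real.rpow_le_rpow_of_exponent_le (by norm_num) (by linarith)
            _ = 2 := Real.rpow_one 2
        have g5 : Real.exp (θ * u * -(1 - η)) ≤ Real.exp (-(θ / 2 * u)) := by
          apply Real.exp_le_exp.2
          have : 0 < θ * u := by positivity
          nlinarith
        calc Real.exp (θ * u * -(1 - η)) * 2 ^ (1 - η) ≤ Real.exp (-(θ / 2 * u)) * 2 := by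
              apply mul_le_mul g5 g4 (by positivity) (Real.exp_pos _).le
          _ = _ := by ring
      have g2 : 96 * u * (X * Real.exp (κ0 * u) * W ^ (-(1 - η))) ≤
          96 * u * (X * Real.exp (κ0 * u) * (2 * Real.exp (-(θ / 2 * u)))) := by
        apply mul_le_mul_of_nonneg_left _ (by positivity)
        exact mul_le_mul_of_nonneg_left g1 (by positivity)
      refine g2.trans ?_
      -- 192 u X e^{κ0 u - θ u / 2} ≤ c X / (2u) e^{-3 κ0 u}
      have g3 : Real.exp (κ0 * u) * Real.exp (-(θ / 2 * u)) ≤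
          Real.exp (-(3 * (κ0 * u))) * Real.exp (-(θ / 4 * u)) := by
        rw [← Real.exp_add, ← Real.exp_add]
        apply Real.exp_le_exp.2
        have := mul_le_mul_of_nonneg_right hκθ hu0.le
        nlinarith
      have g4 : 384 / c * u ^ 2 * Real.exp (-(θ / 4 * u)) ≤ 1 := by
        have := mul_le_mul_of_nonneg_right h3 (Real.exp_pos (-(θ / 4 * u))).le
        rw [← Real.exp_add] at this
        simpa using this
      calc 96 * u * (X * Real.exp (κ0 * u) * (2 * Real.exp (-(θ / 2 * u)))) =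
          192 * u * X * (Real.exp (κ0 * u) * Real.exp (-(θ / 2 * u))) := by ring
        _ ≤ 192 * u * X * (Real.exp (-(3 * (κ0 * u))) * Real.exp (-(θ / 4 * u))) := by
            apply mul_le_mul_of_nonneg_left g3 (by positivity)
        _ = c * X / (2 * u) * Real.exp (-(3 * (κ0 * u))) *
            (384 / c * u ^ 2 * Real.exp (-(θ / 4 * u))) := by
            field_simp
            ring
        _ ≤ c * X / (2 * u) * Real.exp (-(3 * (κ0 * u))) * 1 := by
            apply mul_le_mul_of_nonneg_left g4 (by positivity)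
        _ = _ := mul_one _
    have f3 : 96 * u * (X * Real.exp (κ0 * u) * W ^ (-(1 - η))) * w0 ≤ κ * w0 :=
      mul_le_mul_of_nonneg_right f2 hw0pos.le
    calc 3 * u * (16 * (1 + w0 * (X * Real.exp (κ0 * u) * W ^ (-(1 - η))))) =
        48 * u + 48 * u * (X * Real.exp (κ0 * u) * W ^ (-(1 - η))) * w0 := by ring
      _ ≤ κ * w0 := by linarith

end Pool.Agent.Work.MP_3a3367_nt_h29b
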