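import Mathlib
import Pool.Agent.Work.MP_3a3367_nt_h29b.HIT
import Pool.Agent.Work.MP_3a3367_nt_h29b.CORE2
import Pool.Agent.Work.MP_3a3367_nt_h29b.NUM2
import Pool.Agent.Work.MP_3a3367_nt_h29.WINb

/-!
# One window of the semi-random sieve
-/

set_option autoImplicit false

namespace Pool.Agent.Work.MP_3a3367_nt_h29b

open Finset Filter Topology
open Pool.Agent.Work.MP_b0c12c_nt_univ
open Pool.Agent.Work.MP_b0c12c_nt_univ.INUaux (rp Pr QW)
open Pool.Agent.Work.MP_3a3367_nt_h29 (Sv PP NS NS_mono)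

/-- the weight of an element of the window -/
theorem weight (F : Finset ℕ) (c : ℕ → ℕ) (q : ℕ → ℝ) (m : ℕ) (η δ K N : ℝ) (hη : 0 ≤ η)
    (hδ0 : 0 < δ) (hδ1 : δ ≤ 1) (hm : 0 < m) (hmN : (m : ℝ) ≤ N)
    (hF : ∀ p ∈ F, p.Prime ∧ m ≡ c p [MOD p]) (hK : (#F : ℝ) ≤ K)
    (h0 : ∀ p ∈ F, c p = 0 → (p : ℝ) ^ (-η) ≤ q p) (h1 : ∀ p ∈ F, c p ≠ 0 → δ ≤ q p) :
    N ^ (-η) * δ ^ K ≤ ∏ p ∈ F, q p := by
  have hmr : (0 : ℝ) < m := by exact_mod_cast hm
  have hN : 0 < N := lt_of_lt_of_le hmr hmN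
  rw [← prod_filter_mul_prod_filter_not F (fun p => c p = 0)]
  have e1 : N ^ (-η) ≤ ∏ p ∈ F with c p = 0, q p := by
    have f1 : ∏ p ∈ F with c p = 0, (p : ℝ) ^ (-η) ≤ ∏ p ∈ F with c p = 0, q p := by
      apply Finset.prod_le_prod
      · intro p _; positivity
      · intro p hp
        rw [mem_filter] at hp
        exact h0 p hp.1 hp.2
    refine le_trans ?_ f1
    rw [Real.finsetProd_rpow _ _ (fun p _ => Nat.cast_nonneg p)]
    apply Real.rpow_le_rpow_of_nonpos _ _ (by linarith)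
    · apply Finset.prod_pos
      intro p hp
      exact_mod_cast (hF p (mem_filter.1 hp).1).1.pos
    · refine le_trans ?_ hmN
      have f2 : ∏ p ∈ F with c p = 0, p ∣ m := by
        apply Finset.prod_primes_dvd
        · intro p hp
          exact (hF p (mem_filter.1 hp).1).1.prime
        · intro p hp
          rw [mem_filter] at hp
          have := (hF p hp.1).2
          rw [hp.2] at this
          exact (Nat.modEq_zero_iff_dvd).1 this
      have f3 := Nat.le_of_dvd hm f2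
      have f4 : ((∏ p ∈ F with c p = 0, p : ℕ) : ℝ) ≤ m := Nat.cast_le.2 f3
      rw [Nat.cast_prod] at f4
      exact f4
  have e2 : δ ^ K ≤ ∏ p ∈ F with ¬ c p = 0, q p := by
    have f1 : ∏ p ∈ F with ¬ c p = 0, δ ≤ ∏ p ∈ F with ¬ c p = 0, q p := by
      apply Finset.prod_le_prod
      · intro p _; exact hδ0.le
      · intro p hp
        rw [mem_filter] at hp
        exact h1 p hp.1 hp.2
    refine le_trans ?_ f1
    rw [prod_const, ← Real.rpow_natCast]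
    apply Real.rpow_le_rpow_of_exponent_ge hδ0 hδ1
    refine le_trans ?_ hK
    exact_mod_cast card_le_card (filter_subset _ _)
  exact mul_le_mul e1 e2 (by positivity) (le_trans (by positivity) e1)

theorem window2 {V : ℕ → Finset ℕ} {π : ℕ → ℕ → ℝ} (hL : IsLaw V π)
    (hV : ∀ p : ℕ, p.Prime → ∀ b ∈ V p, b < p) (θ η δ : ℝ) (hθ0 : 0 < θ) (hθ : θ < 1 / 4)
    (hη0 : 0 < η) (hη : η < 1 / 2) (hδ0 : 0 < δ) (hδ1 : δ ≤ 1 / 2)
    (hπ : ∃ P0 : ℕ, ∀ p : ℕ, p.Prime → P0 ≤ p → ∀ b ∈ V p,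
      (b = 0 → π p b ≤ 1 - (p : ℝ) ^ (-η)) ∧ (b ≠ 0 → π p b ≤ 1 - δ))
    (c0 ε : ℝ) (hc0 : 0 < c0) (hε : 0 < ε) :
    ∃ n0 : ℕ, ∀ n : ℕ, n0 ≤ n → ∀ X Y : ℕ, c0 * Real.sqrt n ≤ X → (X : ℝ) ≤ 3 * Real.sqrt n →
      (Y : ℝ) ≤ 2 * Real.sqrt n → ∀ (b v : ℕ → ℕ),
      EA V π (PP ⌊(n : ℝ) ^ θ⌋₊ Y) (ind {w | NS (PP ⌊(n : ℝ) ^ θ⌋₊ Y)
        (Sv (⌊(n : ℝ) ^ θ⌋₊ + 1) X (n + 1) b) w < (n : ℝ) ^ (1 / 2 - η - ε)}) v ≤
        (n : ℝ) ^ (-2 : ℝ) := by
  classical
  obtain ⟨P0, hP0⟩ := hπ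
  set ε1 : ℝ := min ε ((1 / 2 - η) / 2) with hε1def
  have hε1 : 0 < ε1 := lt_min hε (by linarith)
  have hε1a : ε1 ≤ ε := min_le_left _ _
  have hε1b : ε1 ≤ (1 / 2 - η) / 2 := min_le_right _ _
  set lam : ℝ := -Real.log δ with hlamdef
  have hlam : 0 ≤ lam := by
    rw [hlamdef]
    have := Real.log_nonpos hδ0.le (by linarith)
    linarith
  set s : ℝ := min 4 (1 + 1 / (4 * θ)) with hs
  have hs2 : 2 < s := by
    rw [hs, lt_min_iff]
    refine ⟨by norm_num, ?_⟩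
    have : 1 < 1 / (4 * θ) := by
      rw [lt_div_iff₀ (by positivity)]
      linarith
    linarith
  have hs4 : s ≤ 4 := min_le_left _ _
  have hθs : θ * s < 1 / 2 := by
    have h1 : s ≤ 1 + 1 / (4 * θ) := min_le_right _ _
    have h2 : θ * s ≤ θ * (1 + 1 / (4 * θ)) := mul_le_mul_of_nonneg_left h1 hθ0.le
    have h3 : θ * (1 + 1 / (4 * θ)) = θ + 1 / 4 := by field_simp
    linarith
  obtain ⟨c, hc, Wl, hWl2, hlow⟩ := low s hs2 hs4
  set κ0 : ℝ := min (θ / 16) (ε1 / (2 * (3 + lam))) with hκ0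
  have hκ0pos : 0 < κ0 := lt_min (by positivity) (by positivity)
  have hκθ : κ0 ≤ θ / 16 := min_le_left _ _
  have hκε : (3 + lam) * κ0 ≤ ε1 / 2 := by
    have h1 : κ0 ≤ ε1 / (2 * (3 + lam)) := min_le_right _ _
    have h2 := mul_le_mul_of_nonneg_left h1 (show 0 ≤ 3 + lam by linarith)
    have h3 : (3 + lam) * (ε1 / (2 * (3 + lam))) = ε1 / 2 := by
      have : 3 + lam ≠ 0 := by positivity
      field_simp
    linarith
  obtain ⟨T, n1, hhit⟩ := hit_sum θ c0 (κ0 * c / 8) hθ0 hc0 (by positivity)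
  set C : ℝ := 2 / c0 with hC
  have hC0 : 0 ≤ C := by positivity
  have hnum := numerics2 θ η lam κ0 ε1 C c c0 hθ0 hη0 hη hε1 hε1b hκθ hκε hC0 hc hc0
  have hlogt : Tendsto (fun n : ℕ => Real.log (n : ℝ)) atTop atTop :=
    Real.tendsto_log_atTop.comp tendsto_natCast_atTop_atTop
  have hnθ : ∀ᶠ n : ℕ in atTop, 2 * ((P0 : ℝ) + Wl + δ⁻¹ ^ (1 / η) + 2) ≤ (n : ℝ) ^ θ :=
    ((tendsto_rpow_atTop hθ0).comp tendsto_natCast_atTop_atTop).eventually_ge_atTop _
  have hnX : ∀ᶠ n : ℕ in atTop, 2 ^ s / c0 ≤ (n : ℝ) ^ (1 / 2 - θ * s) :=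
    ((tendsto_rpow_atTop (by linarith : 0 < 1 / 2 - θ * s)).comp
      tendsto_natCast_atTop_atTop).eventually_ge_atTop _
  have hn2θ : ∀ᶠ n : ℕ in atTop, 2 ≤ (n : ℝ) ^ (1 - θ) :=
    ((tendsto_rpow_atTop (by linarith : 0 < 1 - θ)).comp
      tendsto_natCast_atTop_atTop).eventually_ge_atTop _
  obtain ⟨n2, hn2⟩ := eventually_atTop.1 ((hlogt.eventually hnum).and
    (hnθ.and (hnX.and (hn2θ.and ((hlogt.eventually_ge_atTop 1).and (eventually_ge_atTop 16))))))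
  refine ⟨max n1 n2, ?_⟩
  intro n hn X Y hX hX3 hY b v
  obtain ⟨hnum, hnθ, hnX, hn2θ, hu1, hn16⟩ := hn2 n (le_trans (le_max_right _ _) hn)
  have hhit' := hhit n (le_trans (le_max_left _ _) hn)
  set u : ℝ := Real.log (n : ℝ) with hu
  have hu0 : 0 < u := by linarith
  have hn16' : (16 : ℝ) ≤ n := by exact_mod_cast hn16
  have hnpos : (0 : ℝ) < n := by linarith
  have hexpu : Real.exp u = n := Real.exp_log hnpos
  have hsqn : Real.sqrt n = Real.exp (u / 2) := by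
    rw [Real.sqrt_eq_iff_mul_self_eq hnpos.le (Real.exp_pos _).le, ← Real.exp_add, ← hexpu]
    congr 1; ring
  have hnθu : (n : ℝ) ^ θ = Real.exp (θ * u) := by
    rw [Real.rpow_def_of_pos hnpos, mul_comm]
  set W : ℕ := ⌊(n : ℝ) ^ θ⌋₊ with hW
  have hWle : (W : ℝ) ≤ (n : ℝ) ^ θ := Nat.floor_le (by positivity)
  have hWge : (n : ℝ) ^ θ < W + 1 := Nat.lt_floor_add_one _
  have hδη : 0 ≤ δ⁻¹ ^ (1 / η) := by positivity
  have hP0r : (0 : ℝ) ≤ P0 := Nat.cast_nonneg _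
  have hWlr : (0 : ℝ) ≤ Wl := Nat.cast_nonneg _
  have hnθ4 : 4 ≤ (n : ℝ) ^ θ := by linarith
  have hWhalf : (n : ℝ) ^ θ ≤ 2 * W := by linarith
  have hWbig : (P0 : ℝ) + Wl + δ⁻¹ ^ (1 / η) + 2 ≤ W := by linarith
  have hWP0 : P0 ≤ W := by
    have : (P0 : ℝ) ≤ W := by linarith
    exact_mod_cast this
  have hWWl : Wl ≤ W + 1 := by
    have : (Wl : ℝ) ≤ ((W + 1 : ℕ) : ℝ) := by push_cast; linarith
    exact_mod_cast this
  have hW2 : 2 ≤ W := by
    have : ((2 : ℕ) : ℝ) ≤ W := by push_cast; linarith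
    exact_mod_cast this
  have hWpos : (0 : ℝ) < W := by linarith
  have hWδ : (W : ℝ) ^ (-η) ≤ δ := by
    have h1 : δ⁻¹ ^ (1 / η) ≤ W := by linarith
    have h2 : (W : ℝ) ^ (-η) ≤ (δ⁻¹ ^ (1 / η)) ^ (-η) :=
      Real.rpow_le_rpow_of_nonpos (by positivity) h1 (by linarith)
    have h3 : (δ⁻¹ ^ (1 / η)) ^ (-η) = δ := by
      rw [← Real.rpow_mul (by positivity)]
      have : 1 / η * -η = -1 := by field_simp
      rw [this, Real.rpow_neg_one, inv_inv]
    linarith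
  -- the size of X
  have hXlow : ((W + 1 : ℕ) : ℝ) ^ s ≤ X := by
    have h1 : ((W + 1 : ℕ) : ℝ) ≤ 2 * (n : ℝ) ^ θ := by push_cast; linarith
    have h2 : ((W + 1 : ℕ) : ℝ) ^ s ≤ (2 * (n : ℝ) ^ θ) ^ s :=
      Real.rpow_le_rpow (Nat.cast_nonneg _) h1 (by linarith)
    refine h2.trans (le_trans ?_ hX)
    rw [Real.mul_rpow (by norm_num) (by positivity), ← Real.rpow_mul hnpos.le]
    have h3 : Real.sqrt n = (n : ℝ) ^ (θ * s) * (n : ℝ) ^ (1 / 2 - θ * s) := by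
      rw [← Real.rpow_add hnpos, Real.sqrt_eq_rpow]
      congr 1
      ring
    rw [h3]
    have h4 : (2 : ℝ) ^ s ≤ c0 * (n : ℝ) ^ (1 / 2 - θ * s) := by
      rw [div_le_iff₀ hc0] at hnX
      linarith
    calc (2 : ℝ) ^ s * (n : ℝ) ^ (θ * s) ≤ c0 * (n : ℝ) ^ (1 / 2 - θ * s) * (n : ℝ) ^ (θ * s) :=
          mul_le_mul_of_nonneg_right h4 (by positivity)
      _ = _ := by ring
  have hSlow := hlow (W + 1) hWWl X hXlow (n + 1) b
  have hlogW : Real.log ((W + 1 : ℕ) : ℝ) ≤ u := by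
    rw [hu]
    apply Real.log_le_log (by positivity)
    have h1 : (n : ℝ) ^ θ * 2 ≤ (n : ℝ) ^ θ * (n : ℝ) ^ (1 - θ) :=
      mul_le_mul_of_nonneg_left hn2θ (by positivity)
    have h2 : (n : ℝ) ^ θ * (n : ℝ) ^ (1 - θ) = n := by
      rw [← Real.rpow_add hnpos]
      simp
    push_cast
    linarith
  have hlogW0 : 0 < Real.log ((W + 1 : ℕ) : ℝ) := Real.log_pos (by push_cast; linarith)
  have hXpos : (0 : ℝ) < X := by
    refine lt_of_lt_of_le ?_ hX
    rw [hsqn]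
    positivity
  have hXN : 0 < X := by exact_mod_cast hXpos
  set P : Finset ℕ := PP W Y with hP
  set S : Finset ℕ := Sv (W + 1) X (n + 1) b with hS
  have hSu : c * X / u ≤ (#S : ℝ) := by
    refine le_trans ?_ hSlow
    exact div_le_div_of_nonneg_left (by positivity) hlogW0 hlogW
  have hPmem : ∀ p ∈ P, p.Prime ∧ W < p ∧ p ≤ Y := by
    intro p hp
    rw [hP] at hp
    unfold PP at hp
    rw [mem_filter, mem_Ioc] at hp
    exact ⟨hp.2, hp.1.1, hp.1.2⟩
  -- heaviest class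
  have hVne : ∀ p, (V p).Nonempty := by
    intro p
    rw [nonempty_iff_ne_empty]
    intro h
    have := hL.sum_one p
    rw [h] at this
    simp at this
  have hcex : ∀ p, ∃ c ∈ V p, ∀ b ∈ V p, π p b ≤ π p c := fun p => exists_max_image (V p) (π p) (hVne p)
  choose cc hcV hcmax using hcex
  have hpδ : ∀ p ∈ P, (p : ℝ) ^ (-η) ≤ δ := by
    intro p hp
    obtain ⟨h1, h2, h3⟩ := hPmem p hp
    refine le_trans ?_ hWδ
    apply Real.rpow_le_rpow_of_nonpos hWpos _ (by linarith)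
    exact_mod_cast h2.le
  have hπη : ∀ p ∈ P, π p (cc p) ≤ 1 - (p : ℝ) ^ (-η) := by
    intro p hp
    obtain ⟨h1, h2, h3⟩ := hPmem p hp
    have h4 := hP0 p h1 (by omega) (cc p) (hcV p)
    by_cases h5 : cc p = 0
    · exact h4.1 h5
    · have := hpδ p hp
      linarith [h4.2 h5]
  have hclt : ∀ p ∈ P, π p (cc p) < 1 := by
    intro p hp
    have h1 := hπη p hp
    have h2 : (0 : ℝ) < (p : ℝ) ^ (-η) := by
      have : (0 : ℝ) < p := by exact_mod_cast (hPmem p hp).1.pos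
      positivity
    linarith
  -- second heaviest class
  have hdex : ∀ p, ∃ d, p ∈ P → (d ∈ V p ∧ d ≠ cc p) ∧ ∀ b ∈ V p, b ≠ cc p → π p b ≤ π p d := by
    intro p
    by_cases hp : p ∈ P
    · have hne : ((V p).erase (cc p)).Nonempty := by
        rw [nonempty_iff_ne_empty]
        intro h
        have h1 := hL.sum_one p
        rw [← sum_erase_add _ _ (hcV p), h, sum_empty, zero_add] at h1
        have := hclt p hp
        linarith
      obtain ⟨d, hd, hdm⟩ := exists_max_image ((V p).erase (cc p)) (π p) hne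
      rw [mem_erase] at hd
      exact ⟨d, fun _ => ⟨⟨hd.2, hd.1⟩, fun b hb hbc => hdm b (mem_erase.2 ⟨hbc, hb⟩)⟩⟩
    · exact ⟨0, fun h => absurd h hp⟩
  choose d hd using hdex
  -- selection
  obtain ⟨hTW, hMsum⟩ := hhit' X Y W hX hY hWhalf
  have hMb : ∀ p ∈ P, ∀ e, (#{m ∈ S | m ≡ e [MOD p]} : ℝ) ≤
      QW T * (X / p) + ∏ l ∈ Pr T, (l : ℝ) := by
    intro p hp e
    obtain ⟨h1, h2, h3⟩ := hPmem p hp
    refine le_trans ?_ (class_sv T X (n + 1) p e b h1 (by omega))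
    have h4 : {m ∈ S | m ≡ e [MOD p]} ⊆ {m ∈ Sv T X (n + 1) b | m ≡ e [MOD p]} := by
      apply filter_subset_filter
      intro m hm
      rw [hS] at hm
      unfold Sv at hm ⊢
      rw [mem_filter] at hm ⊢
      refine ⟨hm.1, fun l hl => hm.2 l ?_⟩
      rw [mem_Pr'] at hl ⊢
      exact ⟨hl.1, by omega⟩
    exact_mod_cast card_le_card h4
  set K : ℝ := κ0 * u with hK
  have hKpos : 0 < K := by positivity
  have hM1 : 8 * ∑ p ∈ P, (QW T * ((X : ℝ) / p) + ∏ l ∈ Pr T, (l : ℝ)) ≤ K * #S := by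
    have h1 : K * (c * X / u) ≤ K * #S := mul_le_mul_of_nonneg_left hSu hKpos.le
    have h2 : K * (c * X / u) = κ0 * c * X := by
      rw [hK]
      field_simp
    have h3 : 8 * (κ0 * c / 8 * X) = κ0 * c * X := by ring
    linarith
  obtain ⟨S', hS'S, hS'c, hKc, hK2⟩ := sel2 hL P S _ hMb cc d
    (fun p hp => ⟨hcV p, hclt p hp⟩) K hKpos hM1
  have hSI : S ⊆ Ico (n + 1) (n + 1 + X) := by rw [hS]; unfold Sv; exact filter_subset _ _
  set w0 : ℝ := Real.exp (-(η * (u + 1)) - lam * (κ0 * u)) with hw0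
  have hw : ∀ m ∈ S', w0 ≤ ∏ p ∈ P.filter (fun p => m ≡ cc p [MOD p]), (1 - π p (cc p)) := by
    intro m hm
    have hm1 := hSI (hS'S hm)
    rw [mem_Ico] at hm1
    have hmn : (m : ℝ) ≤ 2 * n := by
      have h1 : (m : ℝ) ≤ n + X := by exact_mod_cast (by omega : m ≤ n + X)
      have h2 : 3 * Real.sqrt n ≤ n := by
        have h3 : Real.sqrt n * Real.sqrt n = n := Real.mul_self_sqrt hnpos.le
        have h4 : 4 ≤ Real.sqrt n := by
          apply Real.le_sqrt_of_sq_le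
          linarith
        nlinarith
      linarith
    have h1 := weight (P.filter (fun p => m ≡ cc p [MOD p])) cc (fun p => 1 - π p (cc p)) m η δ K
      (2 * n) hη0.le hδ0 (by linarith) (by omega) hmn
      (fun p hp => by
        rw [mem_filter] at hp
        exact ⟨(hPmem p hp.1).1, hp.2⟩)
      (by
        have h2 := hKc m hm
        have h3 : (0 : ℝ) ≤ ((P.filter fun p => m ≡ d p [MOD p]).card : ℝ) := Nat.cast_nonneg _
        linarith)
      (fun p hp h0 => by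
        rw [mem_filter] at hp
        have h2 := (hP0 p (hPmem p hp.1).1 (by have := (hPmem p hp.1).2.1; omega) (cc p) (hcV p)).1 h0
        show (p : ℝ) ^ (-η) ≤ 1 - π p (cc p)
        linarith)
      (fun p hp h0 => by
        rw [mem_filter] at hp
        have h2 := (hP0 p (hPmem p hp.1).1 (by have := (hPmem p hp.1).2.1; omega) (cc p) (hcV p)).2 h0
        show δ ≤ 1 - π p (cc p)
        linarith)
    refine le_trans ?_ h1
    rw [hw0, sub_eq_add_neg, Real.exp_add]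
    apply mul_le_mul _ _ (Real.exp_pos _).le (by positivity)
    · rw [Real.rpow_def_of_pos (by positivity)]
      apply Real.exp_le_exp.2
      rw [Real.log_mul (by norm_num) hnpos.ne', ← hu]
      have h2 : Real.log 2 ≤ 1 := by
        have := Real.log_two_lt_d9
        linarith
      nlinarith
    · rw [Real.rpow_def_of_pos hδ0]
      apply Real.exp_le_exp.2
      rw [hlamdef, hK]
      ring_nf
      exact le_rfl
  have hcore := core2 hL P S' X (n + 1) W hXN (by omega) C K η w0 hC0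
    (fun p hp => by
      obtain ⟨h1, h2, h3⟩ := hPmem p hp
      refine ⟨h1, h2, ?_⟩
      have h4 : (p : ℝ) ≤ Y := by exact_mod_cast h3
      have h5 : 2 * Real.sqrt n = 2 / c0 * (c0 * Real.sqrt n) := by field_simp
      have h6 : 2 / c0 * (c0 * Real.sqrt n) ≤ 2 / c0 * X := mul_le_mul_of_nonneg_left hX (by positivity)
      rw [hC]
      linarith)
    (fun p hp => hV p (hPmem p hp).1) cc d (fun p _ => hcV p) (fun p hp => (hd p hp).1)
    (fun p _ => hcmax p) (fun p hp => (hd p hp).2) (by linarith) hπη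
    (hS'S.trans hSI) hKc hK2 (Real.exp_pos _) hw v
  set κ : ℝ := Real.exp (-(3 * K)) * (#S' : ℝ) with hκ
  have hκlow : c * X / (2 * u) * Real.exp (-(3 * (κ0 * u))) ≤ κ := by
    rw [hκ, mul_comm]
    apply mul_le_mul_of_nonneg_left _ (Real.exp_pos _).le
    have h1 : c * X / (2 * u) = c * X / u / 2 := by field_simp
    rw [h1]
    linarith
  rw [hsqn] at hX
  obtain ⟨h1, h2, h3⟩ := hnum X W κ hX (by rw [← hnθu]; linarith) hκlow
  -- monotonicity
  have hmono : EA V π P (ind {w | NS P S w < (n : ℝ) ^ (1 / 2 - η - ε)}) v ≤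
      EA V π P (ind {w | NS P S' w < κ * w0 / 4}) v := by
    apply EA_mono hL.nonneg
    intro w
    apply ind_mono
    intro hw'
    have h4 : NS P S w < (n : ℝ) ^ (1 / 2 - η - ε) := hw'
    show NS P S' w < κ * w0 / 4
    refine lt_of_le_of_lt (NS_mono hS'S w) (lt_of_lt_of_le h4 ?_)
    have h5 : (n : ℝ) ^ (1 / 2 - η - ε) ≤ Real.exp ((1 / 2 - η - ε1) * u) := by
      rw [Real.rpow_def_of_pos hnpos]
      apply Real.exp_le_exp.2
      rw [mul_comm]
      apply mul_le_mul_of_nonneg_right _ hu0.le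
      linarith
    linarith
  refine hmono.trans (hcore.trans ?_)
  have h4 : (n : ℝ) ^ (-2 : ℝ) = Real.exp (-(2 * u)) := by
    rw [Real.rpow_def_of_pos hnpos]
    congr 1
    rw [← hu]
    ring
  rw [h4]
  have h5 : Real.exp (-(κ ^ 2 / (16 * ((1 + C) ^ 2 * (X : ℝ) ^ 2 / W)))) ≤ Real.exp (-(3 * u)) :=
    Real.exp_le_exp.2 (neg_le_neg h2)
  have h6 : Real.exp (-(κ * w0 / (16 * (1 + w0 * (X * Real.exp K * (W : ℝ) ^ (-(1 - η))))))) ≤
      Real.exp (-(3 * u)) := Real.exp_le_exp.2 (neg_le_neg h3)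
  have h7 : Real.exp (-(3 * u)) = Real.exp (-u) * Real.exp (-(2 * u)) := by
    rw [← Real.exp_add]; congr 1; ring
  have h8 : Real.exp (-u) ≤ 1 / 2 := by
    rw [Real.exp_neg, ← one_div]
    apply one_div_le_one_div_of_le (by norm_num)
    have := Real.add_one_le_exp u
    linarith
  have h9 := mul_le_mul_of_nonneg_right h8 (Real.exp_pos (-(2 * u))).le
  linarith

end Pool.Agent.Work.MP_3a3367_nt_h29b
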