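import Mathlib
import Pool.Agent.Work.MP_3a3367_nt_h29b.WIN2
import Pool.Agent.Work.MP_3a3367_nt_h29.FIN

/-!
# The almost sure statement for the semi-random sieve
-/

set_option autoImplicit false

namespace Pool.Agent.Work.MP_3a3367_nt_h29b

open Finset Filter Topology MeasureTheory ProbabilityTheory
open Pool.Agent.Work.MP_b0c12c_nt_univ (E1 EA ind IsLaw EA_mono EA_mono_on EA_le_const EA_sdiff
  ind_dependsOn ind_mono ind_of_mem ind_of_not_mem ind_nonneg resV resπ stmt_PRU)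
open Pool.Agent.Work.MP_b0c12c_nt_univ.INUaux (Pr)
open Pool.Agent.Work.MP_3a3367_nt_h29 (Sv PP NS NS_dep res res_modEq Win win_finite)

/-- The integers `m ≥ 2` with `m ≢ b p` modulo `p` for all primes `p ≤ m ^ θ` and `m ≢ a p` modulo
`p` for all primes `p` with `m ^ θ < p ≤ √m`. -/
def Semi (θ : ℝ) (b a : ℕ → ℤ) : Set ℕ :=
  {m | 2 ≤ m ∧ ∀ p : ℕ, p.Prime → p * p ≤ m →
    ((p : ℝ) ≤ (m : ℝ) ^ θ → ¬ (m : ℤ) ≡ b p [ZMOD p]) ∧
    ((m : ℝ) ^ θ < p → ¬ (m : ℤ) ≡ a p [ZMOD p])}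

/-- the residue classes of a fixed sequence -/
def resd (b : ℕ → ℤ) : ℕ → ℕ := fun p => (b p % p).toNat

theorem resd_modEq {b : ℕ → ℤ} {p : ℕ} (hp : p.Prime) (n : ℕ) :
    n ≡ resd b p [MOD p] ↔ (n : ℤ) ≡ b p [ZMOD p] := by
  have hp0 : (0 : ℤ) < p := by exact_mod_cast hp.pos
  have h1 : ((resd b p : ℕ) : ℤ) = b p % p := Int.toNat_of_nonneg (Int.emod_nonneg _ hp0.ne')
  rw [← Int.natCast_modEq_iff, h1]
  constructor
  · intro h; exact h.trans (Int.mod_modEq _ _)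
  · intro h; exact h.trans (Int.mod_modEq _ _).symm

variable {Ω : Type*} [MeasurableSpace Ω] {μ : Measure Ω} [IsProbabilityMeasure μ]
  {a : ℕ → Ω → ℤ}

theorem fin_aux2 (ha : ∀ p, Measurable (a p)) (hI : iIndepFun a μ) (b : ℕ → ℤ)
    (θ η δ : ℝ) (hθ0 : 0 < θ) (hθ : θ < 1 / 4)
    (hη0 : 0 < η) (hη : η < 1 / 2) (hδ0 : 0 < δ)
    (hatom : ∀ᶠ p : ℕ in atTop, p.Prime →
      μ.real {ω | a p ω ≡ 0 [ZMOD p]} ≤ 1 - (p : ℝ) ^ (-η) ∧
      ∀ c : ℤ, ¬ c ≡ 0 [ZMOD p] → μ.real {ω | a p ω ≡ c [ZMOD p]} ≤ 1 - δ) (c0 ε : ℝ)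
    (hc0 : 0 < c0) (hc03 : c0 ≤ 3) (hε : 0 < ε) :
    ∀ᵐ ω ∂μ, ∀ᶠ n : ℕ in atTop, (n : ℝ) ^ (1 / 2 - η - ε) ≤
      ((Win (Semi θ b fun p => a p ω) c0 n).ncard : ℝ) := by
  classical
  obtain ⟨hLaw, hPR⟩ := stmt_PRU μ a ha hI
  have hV : ∀ p : ℕ, p.Prime → ∀ b ∈ resV p, b < p := by
    intro p hp b hb
    unfold resV at hb
    rw [if_pos hp, mem_range] at hb
    exact hb
  set δ' : ℝ := min δ (1 / 2) with hδ'
  have hδ'0 : 0 < δ' := lt_min hδ0 (by norm_num)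
  have hπ : ∃ P0 : ℕ, ∀ p : ℕ, p.Prime → P0 ≤ p → ∀ b ∈ resV p,
      (b = 0 → resπ μ a p b ≤ 1 - (p : ℝ) ^ (-η)) ∧ (b ≠ 0 → resπ μ a p b ≤ 1 - δ') := by
    obtain ⟨P, hP⟩ := eventually_atTop.1 hatom
    refine ⟨P, fun p hp hPp e he => ?_⟩
    have hep := hV p hp e he
    have hset : ∀ e : ℕ, {ω | a p ω ≡ (e : ℤ) [ZMOD p]} = {ω | (p : ℤ) ∣ a p ω - e} := by
      intro e
      ext ω
      simp only [Set.mem_ofPred_eq]
      rw [Int.modEq_comm, Int.modEq_iff_dvd]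
    obtain ⟨h1, h2⟩ := hP p hPp hp
    constructor
    · rintro rfl
      unfold resπ
      rw [if_pos hp]
      refine le_trans (le_of_eq ?_) h1
      congr 1
      ext ω
      simp only [Set.mem_ofPred_eq]
      rw [Int.modEq_comm, Int.modEq_iff_dvd]
      simp
    · intro he0
      unfold resπ
      rw [if_pos hp]
      have h3 : ¬ (e : ℤ) ≡ 0 [ZMOD p] := by
        intro h
        rw [Int.modEq_zero_iff_dvd] at h
        have h4 : p ∣ e := by exact_mod_cast h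
        exact he0 (Nat.eq_zero_of_dvd_of_lt h4 hep)
      have h4 := h2 e h3
      have h5 : δ' ≤ δ := min_le_left _ _
      refine le_trans (le_of_eq ?_) (h4.trans (by linarith))
      congr 1
      ext ω
      simp only [Set.mem_ofPred_eq]
      rw [Int.modEq_comm, Int.modEq_iff_dvd]
  obtain ⟨n0, hn0⟩ := window2 hLaw hV θ η δ' hθ0 hθ hη0 hη hδ'0 (min_le_right _ _) hπ (c0 / 2) ε
    (by positivity) hε
  -- the events
  set X : ℕ → ℕ := fun n => ⌊c0 * Real.sqrt n⌋₊ with hX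
  set Y : ℕ → ℕ := fun n => Nat.sqrt (n + X n) with hY
  set W : ℕ → ℕ := fun n => ⌊(n : ℝ) ^ θ⌋₊ with hW
  set t : ℕ → ℝ := fun n => (n : ℝ) ^ (1 / 2 - η - ε) with ht
  set F : ℕ → Set (ℕ → ℕ) := fun n =>
    {w | NS (PP (W n) (Y n)) (Sv (W n + 1) (X n) (n + 1) (resd b)) w < t n} with hF
  have hev : ∀ᶠ n : ℕ in atTop, 12 ≤ (n : ℝ) ^ (1 / 2 - θ) :=
    ((tendsto_rpow_atTop (by linarith : 0 < 1 / 2 - θ)).comp
      tendsto_natCast_atTop_atTop).eventually_ge_atTop _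
  obtain ⟨n1, hn1⟩ := eventually_atTop.1
    ((((Real.tendsto_sqrt_atTop.comp tendsto_natCast_atTop_atTop).eventually_ge_atTop
      (2 / c0 + 1))).and ((eventually_ge_atTop n0).and (hev.and (eventually_ge_atTop 16))))
  have hbasic : ∀ n, n1 ≤ n → c0 / 2 * Real.sqrt n ≤ X n ∧ (X n : ℝ) ≤ 3 * Real.sqrt n ∧
      (Y n : ℝ) ≤ 2 * Real.sqrt n := by
    intro n hn
    obtain ⟨hs1, hs2, hs3, hs4⟩ := hn1 n hn
    simp only [Function.comp_apply] at hs1
    set r : ℝ := Real.sqrt n with hr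
    have hr0 : 0 < r := by
      have : 0 < 2 / c0 + 1 := by positivity
      linarith
    have hr2 : r * r = n := Real.mul_self_sqrt (Nat.cast_nonneg n)
    have hr1 : 1 ≤ r := by
      have : 0 < 2 / c0 := by positivity
      linarith
    have hcr : 2 ≤ c0 * r := by
      have : 2 / c0 ≤ r := by linarith
      rw [div_le_iff₀ hc0] at this
      linarith
    have hX1 : c0 / 2 * r ≤ X n := by
      have := Nat.lt_floor_add_one (c0 * r)
      simp only [hX]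
      linarith
    have hX2 : (X n : ℝ) ≤ c0 * r := Nat.floor_le (by positivity)
    have hX3 : (X n : ℝ) ≤ 3 * r := hX2.trans (mul_le_mul_of_nonneg_right hc03 hr0.le)
    have hY1 : (Y n : ℝ) ≤ 2 * r := by
      have h1 : Y n * Y n ≤ n + X n := Nat.sqrt_le _
      have h2 : (Y n : ℝ) * Y n ≤ n + X n := by exact_mod_cast h1
      have h3 : (Y n : ℝ) * Y n ≤ (2 * r) * (2 * r) := by nlinarith
      exact (mul_self_le_mul_self_iff (Nat.cast_nonneg _) (by positivity)).2 h3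
    exact ⟨hX1, hX3, hY1⟩
  have hprob : ∀ n, n1 ≤ n → μ.real {ω | res a ω ∈ F n} ≤ (n : ℝ) ^ (-2 : ℝ) := by
    intro n hn
    obtain ⟨hX1, hX3, hY1⟩ := hbasic n hn
    obtain ⟨hs1, hs2, hs3, hs4⟩ := hn1 n hn
    have h1 := hn0 n hs2 (X n) (Y n) hX1 hX3 hY1 (resd b) (fun _ => 0)
    have h2 := (hPR (PP (W n) (Y n)) (fun p hp => (mem_filter.1 hp).2) (F n) (NS_dep _ _ _)).2
    have h3 : {ω | res a ω ∈ F n} = {ω | (fun p => (a p ω % p).toNat) ∈ F n} := rfl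
    rw [h3, h2]
    exact h1
  -- Borel-Cantelli
  set s : ℕ → Set Ω := fun n => if n1 ≤ n then {ω | res a ω ∈ F n} else ∅ with hs
  have hsum : ∑' n, μ (s n) ≠ ⊤ := by
    have hle : ∀ n, μ (s n) ≤ ENNReal.ofReal ((n : ℝ) ^ (-2 : ℝ)) := by
      intro n
      simp only [hs]
      split_ifs with h
      · rw [← ofReal_measureReal]
        exact ENNReal.ofReal_le_ofReal (hprob n h)
      · simp
    have hsm : Summable fun n : ℕ => (n : ℝ) ^ (-2 : ℝ) := by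
      rw [Real.summable_nat_rpow]
      norm_num
    refine ne_top_of_le_ne_top ?_ (ENNReal.tsum_le_tsum hle)
    rw [← ENNReal.ofReal_tsum_of_nonneg (fun n => by positivity) hsm]
    exact ENNReal.ofReal_ne_top
  filter_upwards [ae_eventually_notMem hsum] with ω hω
  filter_upwards [hω, eventually_ge_atTop n1] with n hn1' hn2
  simp only [hs, if_pos hn2] at hn1'
  obtain ⟨hX1, hX3, hY1⟩ := hbasic n hn2
  obtain ⟨hs1, hs2, hs3, hs4⟩ := hn1 n hn2
  have h1 : ¬ NS (PP (W n) (Y n)) (Sv (W n + 1) (X n) (n + 1) (resd b)) (res a ω) < t n := hn1'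
  rw [not_lt] at h1
  refine h1.trans ?_
  unfold NS
  rw [← Set.ncard_coe_finset]
  have hn16 : (16 : ℝ) ≤ n := by exact_mod_cast hs4
  have hnpos : (0 : ℝ) < n := by linarith
  have h2 : (((Sv (W n + 1) (X n) (n + 1) (resd b)).filter fun m => ∀ p ∈ PP (W n) (Y n),
      ¬ m ≡ res a ω p [MOD p] : Finset ℕ) : Set ℕ) ⊆ Win (Semi θ b fun p => a p ω) c0 n := by
    intro m hm
    unfold Sv at hm
    rw [Finset.mem_coe, mem_filter, mem_filter, mem_Ico] at hm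
    obtain ⟨⟨⟨h3, h4⟩, h4'⟩, h5⟩ := hm
    have hmn : (m : ℝ) ≤ n + X n := by exact_mod_cast (by omega : m ≤ n + X n)
    have hnm : (n : ℝ) ≤ m := by exact_mod_cast (by omega : n ≤ m)
    -- the exponent
    have hmθ : (m : ℝ) ^ θ ≤ (n : ℝ) ^ θ + 1 / 2 := by
      have g1 : (m : ℝ) ≤ n * (1 + 3 / Real.sqrt n) := by
        have g2 : (n : ℝ) * (3 / Real.sqrt n) = 3 * Real.sqrt n := by
          have g3 : Real.sqrt n * Real.sqrt n = n := Real.mul_self_sqrt hnpos.le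
          have g4 : 0 < Real.sqrt n := Real.sqrt_pos.2 hnpos
          field_simp
          nlinarith
        rw [mul_add, g2]
        linarith
      have g4 : 0 < Real.sqrt n := Real.sqrt_pos.2 hnpos
      have g5 : (m : ℝ) ^ θ ≤ (n : ℝ) ^ θ * (1 + 3 / Real.sqrt n) ^ θ := by
        rw [← Real.mul_rpow hnpos.le (by positivity)]
        exact Real.rpow_le_rpow (by positivity) g1 hθ0.le
      have g6 : (1 + 3 / Real.sqrt n) ^ θ ≤ 1 + 3 / Real.sqrt n := by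
        calc (1 + 3 / Real.sqrt n) ^ θ ≤ (1 + 3 / Real.sqrt n) ^ (1 : ℝ) :=
              Real.rpow_le_rpow_of_exponent_le (by
                have : 0 < 3 / Real.sqrt n := by positivity
                linarith) (by linarith)
          _ = _ := Real.rpow_one _
      have g7 : (n : ℝ) ^ θ * (3 / Real.sqrt n) ≤ 1 / 4 := by
        have g8 : Real.sqrt n = (n : ℝ) ^ θ * (n : ℝ) ^ (1 / 2 - θ) := by
          rw [← Real.rpow_add hnpos, Real.sqrt_eq_rpow]
          congr 1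
          ring
        rw [← mul_div_assoc, div_le_iff₀ g4, g8]
        have g9 : 0 < (n : ℝ) ^ θ := by positivity
        nlinarith
      have g10 : (n : ℝ) ^ θ * (1 + 3 / Real.sqrt n) ^ θ ≤ (n : ℝ) ^ θ * (1 + 3 / Real.sqrt n) :=
        mul_le_mul_of_nonneg_left g6 (by positivity)
      linarith
    refine ⟨by omega, ?_, by omega, ?_⟩
    · have h7 : (X n : ℝ) ≤ c0 * Real.sqrt n := Nat.floor_le (by positivity)
      linarith
    · intro p hp hpm
      have h7 : p ≤ Y n := by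
        rw [hY]
        apply Nat.le_sqrt.2
        omega
      constructor
      · intro hpθ h6
        apply h4' p _ ((resd_modEq hp m).2 h6)
        rw [mem_Pr']
        refine ⟨hp, ?_⟩
        have g1 : (p : ℝ) < ((W n + 1 + 1 : ℕ) : ℝ) := by
          have := Nat.lt_floor_add_one ((n : ℝ) ^ θ)
          simp only [hW]
          push_cast
          linarith
        have g2 : p < W n + 1 + 1 := by exact_mod_cast g1
        omega
      · intro hpθ h6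
        apply h5 p _ ((res_modEq hp ω m).2 h6)
        unfold PP
        rw [mem_filter, mem_Ioc]
        refine ⟨⟨?_, h7⟩, hp⟩
        have g1 : (n : ℝ) ^ θ ≤ (m : ℝ) ^ θ := Real.rpow_le_rpow hnpos.le hnm hθ0.le
        have g2 : ((W n : ℕ) : ℝ) ≤ (n : ℝ) ^ θ := Nat.floor_le (by positivity)
        have g3 : ((W n : ℕ) : ℝ) < p := by linarith
        exact_mod_cast g3
  exact_mod_cast Set.ncard_le_ncard h2 (win_finite _ _ _)

theorem fin2 (ha : ∀ p, Measurable (a p)) (hI : iIndepFun a μ) (b : ℕ → ℤ)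
    (θ η δ : ℝ) (hθ0 : 0 < θ) (hθ : θ < 1 / 4)
    (hη0 : 0 < η) (hη : η < 1 / 2) (hδ0 : 0 < δ)
    (hatom : ∀ᶠ p : ℕ in atTop, p.Prime →
      μ.real {ω | a p ω ≡ 0 [ZMOD p]} ≤ 1 - (p : ℝ) ^ (-η) ∧
      ∀ c : ℤ, ¬ c ≡ 0 [ZMOD p] → μ.real {ω | a p ω ≡ c [ZMOD p]} ≤ 1 - δ) :
    ∀ᵐ ω ∂μ, ∀ c ε : ℝ, 0 < c → 0 < ε → ∀ᶠ n : ℕ in atTop, (n : ℝ) ^ (1 / 2 - η - ε) ≤
      ((Win (Semi θ b fun p => a p ω) c n).ncard : ℝ) := by
  have h1 : ∀ᵐ ω ∂μ, ∀ i j : ℕ, ∀ᶠ n : ℕ in atTop, (n : ℝ) ^ (1 / 2 - η - 1 / ((j : ℝ) + 1)) ≤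
      ((Win (Semi θ b fun p => a p ω) (1 / ((i : ℝ) + 1)) n).ncard : ℝ) := by
    rw [ae_all_iff]
    intro i
    rw [ae_all_iff]
    intro j
    apply fin_aux2 ha hI b θ η δ hθ0 hθ hη0 hη hδ0 hatom
    · positivity
    · have hi : (0 : ℝ) ≤ i := Nat.cast_nonneg i
      rw [div_le_iff₀ (by positivity)]
      linarith
    · positivity
  filter_upwards [h1] with ω hω
  intro c ε hc hε
  obtain ⟨i, hi⟩ := exists_nat_one_div_lt hc
  obtain ⟨j, hj⟩ := exists_nat_one_div_lt hε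
  filter_upwards [hω i j, eventually_ge_atTop 1] with n hn hn1
  have hn1' : (1 : ℝ) ≤ n := by exact_mod_cast hn1
  have h2 : (n : ℝ) ^ (1 / 2 - η - ε) ≤ (n : ℝ) ^ (1 / 2 - η - 1 / ((j : ℝ) + 1)) :=
    Real.rpow_le_rpow_of_exponent_le hn1' (by linarith)
  refine h2.trans (hn.trans ?_)
  have h3 : Win (Semi θ b fun p => a p ω) (1 / ((i : ℝ) + 1)) n ⊆
      Win (Semi θ b fun p => a p ω) c n := by
    rintro m ⟨h4, h5, h6⟩
    refine ⟨h4, ?_, h6⟩
    have h7 : 1 / ((i : ℝ) + 1) * Real.sqrt n ≤ c * Real.sqrt n :=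
      mul_le_mul_of_nonneg_right hi.le (Real.sqrt_nonneg _)
    linarith
  exact_mod_cast Set.ncard_le_ncard h3 (win_finite _ _ _)

end Pool.Agent.Work.MP_3a3367_nt_h29b
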